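import Mathlib
import Pool.Agent.H94.NP.Pub
import Pool.Agent.H94.NC.Stmt

/-!
# Bridge, words: the chains of `Pub.lean` and the words `Wd`

`U` is the public space with homogeneous elements `g i`, product `mul`, differential `d`; the
internal graded dg algebra `A` is identified with the span of the homogeneous elements by `j`,
`ρ` is a linear retraction.  `th` maps a formal combination of words to an element of `Wd`.

Proof of `mem_Rel`.  Let `Q = MonoidAlgebra k (List (ℤ × U)) ⧸ Rel k U`.  Appending a letter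
`(i, u)` to all words induces (on classes) an endomorphism of `Q`, linear in `u`; hence, using
`ofInt A.internal` (a linear map out of `A.V` from linear maps out of the pieces `A.gr i`), there
are linear maps `n : A.V → Q`, `s : A.V → End Q` with `n a = [(i, j a)]` and
`s a [w] = [w ++ (i, j a)]` for `a ∈ A.gr i`.  Let `Λ : Wd k A.V A.V → Q` be `recW n 0 (Z r ↦ s r Z)`.
Then `Λ (thw w) = [w]` for all nonempty homogeneous words (induction, `List.reverseRecOn`;
`j (ρ u) = u` for `u ∈ g i`), so `Λ (th t) = [t]` for `t ∈ HomS`, and `th t = 0` gives `[t] = 0`.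
-/

set_option autoImplicit false

open scoped TensorProduct

noncomputable section

namespace KPub

open NC NC.Wd

variable {k : Type} [Field k] {U : Type} [AddCommGroup U] [Module k U]

/-- the word in `Wd` of a list of letters -/
def thw {V : Type} [AddCommGroup V] [Module k V] (ρ : U →ₗ[k] V) (w : List (ℤ × U)) : Wd k V V :=
  match w with
  | [] => 0
  | x :: w => w.foldl (fun a y => snoc a (ρ y.2)) (nil (ρ x.2))

/-- linear extension of `thw` -/
def th {V : Type} [AddCommGroup V] [Module k V] (ρ : U →ₗ[k] V) :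
    MonoidAlgebra k (List (ℤ × U)) →ₗ[k] Wd k V V :=
  Finsupp.linearCombination k (thw ρ) ∘ₗ (MonoidAlgebra.coeffLinearEquiv k).toLinearMap

variable (k U) in
/-- the span of the nonempty homogeneous words -/
def HomS (g : ℤ → Set U) : Submodule k (MonoidAlgebra k (List (ℤ × U))) :=
  Submodule.span k {t | ∃ w : List (ℤ × U), w ≠ [] ∧ (∀ x ∈ w, x.2 ∈ g x.1) ∧
    t = MonoidAlgebra.single w 1}

/-- an identification of the span of the homogeneous elements of `U` with a dg algebra -/
structure Pres (A : ZDGA k) (mul : U → U → U) (d : ℤ → U → U) (g : ℤ → Set U) where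
  j : A.V →ₗ[k] U
  ρ : U →ₗ[k] A.V
  ρj : ∀ a, ρ (j a) = a
  gr : ∀ i u, u ∈ g i ↔ ∃ a ∈ A.gr i, j a = u
  mul : ∀ a b, mul (j a) (j b) = j (A.mul a b)
  d : ∀ i, ∀ a ∈ A.gr i, d i (j a) = j (A.D a)

section

variable {V : Type} [AddCommGroup V] [Module k V] (ρ : U →ₗ[k] V)

theorem thw_one (x : ℤ × U) : thw ρ [x] = nil (ρ x.2) := rfl

theorem thw_append {w : List (ℤ × U)} (hw : w ≠ []) (x : ℤ × U) :
    thw ρ (w ++ [x]) = snoc (thw ρ w) (ρ x.2) := by
  cases w with
  | nil => exact absurd rfl hw
  | cons y w =>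
    change (w ++ [x]).foldl (fun a y => snoc a (ρ y.2)) (nil (ρ y.2)) =
      snoc (w.foldl (fun a y => snoc a (ρ y.2)) (nil (ρ y.2))) (ρ x.2)
    rw [List.foldl_append]
    rfl

theorem th_single (w : List (ℤ × U)) (c : k) : th ρ (MonoidAlgebra.single w c) = c • thw ρ w := by
  unfold th
  rw [LinearMap.comp_apply]
  change Finsupp.linearCombination k (thw ρ) (Finsupp.single w c) = _
  rw [Finsupp.linearCombination_single]

private theorem thw_mid (p q : List (ℤ × U)) (i : ℤ) (u v : U) (c : k) :
    thw ρ (p ++ (i, u + c • v) :: q) = thw ρ (p ++ (i, u) :: q) + c • thw ρ (p ++ (i, v) :: q) := by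
  induction q using List.reverseRecOn with
  | nil =>
    by_cases hp : p = []
    · subst hp
      change nil (ρ (u + c • v)) = nil (ρ u) + c • nil (ρ v)
      rw [map_add, map_smul, map_add, map_smul]
    · rw [thw_append ρ hp, thw_append ρ hp, thw_append ρ hp]
      change snoc (thw ρ p) (ρ (u + c • v)) = snoc (thw ρ p) (ρ u) + c • snoc (thw ρ p) (ρ v)
      rw [map_add, map_smul, map_add, map_smul]
  | append_singleton q x ih =>
    have e : ∀ z : ℤ × U, p ++ z :: (q ++ [x]) = (p ++ z :: q) ++ [x] := by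
      intro z
      rw [List.append_assoc, List.cons_append]
    have ne : ∀ z : ℤ × U, p ++ z :: q ≠ [] := by
      intro z h
      exact List.cons_ne_nil _ _ (List.append_eq_nil_iff.1 h).2
    rw [e, e, e, thw_append ρ (ne _), thw_append ρ (ne _), thw_append ρ (ne _), ih, map_add,
      map_smul, LinearMap.add_apply, LinearMap.smul_apply]

theorem th_Rel {t : MonoidAlgebra k (List (ℤ × U))} (ht : t ∈ Rel k U) : th ρ t = 0 := by
  have h : Rel k U ≤ LinearMap.ker (th (k := k) ρ) := by
    unfold Rel
    rw [Submodule.span_le]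
    rintro _ ⟨p, q, i, u, v, c, rfl⟩
    rw [SetLike.mem_coe, LinearMap.mem_ker, map_sub, map_sub, th_single, th_single, th_single,
      one_smul, one_smul, thw_mid]
    abel
  exact LinearMap.mem_ker.1 (h ht)

end

section quotient

/-- the class of a word modulo the multilinear relations -/
private def wcl (w : List (ℤ × U)) : MonoidAlgebra k (List (ℤ × U)) ⧸ Rel k U :=
  (Rel k U).mkQ (MonoidAlgebra.single w 1)

private theorem mkQ_single (w : List (ℤ × U)) (c : k) :
    (Rel k U).mkQ (MonoidAlgebra.single w c) = c • wcl w := by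
  have h : MonoidAlgebra.single w c = c • (MonoidAlgebra.single w 1 :
      MonoidAlgebra k (List (ℤ × U))) := by
    rw [MonoidAlgebra.smul_single, smul_eq_mul, mul_one]
  rw [h, map_smul]
  rfl

private theorem wcl_mid (p q : List (ℤ × U)) (i : ℤ) (u v : U) (c : k) :
    (wcl (p ++ (i, u + c • v) :: q) : MonoidAlgebra k (List (ℤ × U)) ⧸ Rel k U) =
      wcl (p ++ (i, u) :: q) + c • wcl (p ++ (i, v) :: q) := by
  have h : (Rel k U).mkQ (MonoidAlgebra.single (p ++ (i, u + c • v) :: q) 1 -
    MonoidAlgebra.single (p ++ (i, u) :: q) 1 - MonoidAlgebra.single (p ++ (i, v) :: q) c) = 0 := by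
    rw [Submodule.mkQ_apply, Submodule.Quotient.mk_eq_zero]
    exact Submodule.subset_span ⟨p, q, i, u, v, c, rfl⟩
  rw [map_sub, map_sub, mkQ_single, mkQ_single, mkQ_single, one_smul, one_smul] at h
  rw [sub_sub, sub_eq_zero] at h
  exact h

private theorem lin_of {W Z : Type} [AddCommGroup W] [Module k W] [AddCommGroup Z] [Module k Z]
    (F : W → Z) (hF : ∀ u v (c : k), F (u + c • v) = F u + c • F v) : IsLinearMap k F := by
  have h0 : F 0 = 0 := by
    have h := hF 0 0 1
    rw [smul_zero, add_zero, one_smul] at h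
    exact left_eq_add.1 h
  constructor
  · intro u v
    have h := hF u v 1
    rw [one_smul, one_smul] at h
    exact h
  · intro c v
    have h := hF 0 v c
    rw [zero_add, h0, zero_add] at h
    exact h

/-- words of one letter -/
private def n1 (i : ℤ) : U →ₗ[k] MonoidAlgebra k (List (ℤ × U)) ⧸ Rel k U :=
  (lin_of (k := k) (fun u => (wcl [(i, u)] : MonoidAlgebra k (List (ℤ × U)) ⧸ Rel k U))
    (fun u v c => wcl_mid [] [] i u v c)).mk'

private theorem n1_apply (i : ℤ) (u : U) : n1 (k := k) i u = wcl [(i, u)] := rfl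

/-- append a letter: on formal combinations -/
private def s0 (x : ℤ × U) :
    MonoidAlgebra k (List (ℤ × U)) →ₗ[k] MonoidAlgebra k (List (ℤ × U)) ⧸ Rel k U :=
  Finsupp.linearCombination k (fun w => wcl (w ++ [x])) ∘ₗ
    (MonoidAlgebra.coeffLinearEquiv k).toLinearMap

private theorem s0_single (x : ℤ × U) (w : List (ℤ × U)) (c : k) :
    s0 x (MonoidAlgebra.single w c) = c • wcl (w ++ [x]) := by
  unfold s0
  rw [LinearMap.comp_apply]
  change Finsupp.linearCombination k _ (Finsupp.single w c) = _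
  rw [Finsupp.linearCombination_single]

private theorem s0_Rel (x : ℤ × U) : Rel k U ≤ LinearMap.ker (s0 (k := k) x) := by
  have h : Submodule.span k {t | ∃ p q i u v c, t = MonoidAlgebra.single (p ++ (i, u + c • v) :: q) 1 -
    MonoidAlgebra.single (p ++ (i, u) :: q) 1 - MonoidAlgebra.single (p ++ (i, v) :: q) c} ≤
      LinearMap.ker (s0 (k := k) x) := by
    rw [Submodule.span_le]
    rintro _ ⟨p, q, i, u, v, c, rfl⟩
    rw [SetLike.mem_coe, LinearMap.mem_ker, map_sub, map_sub, s0_single, s0_single, s0_single,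
      one_smul, one_smul]
    rw [List.append_assoc, List.append_assoc, List.append_assoc, List.cons_append,
      List.cons_append, List.cons_append, wcl_mid]
    abel
  exact h

/-- append a letter -/
private def s1 (x : ℤ × U) :
    MonoidAlgebra k (List (ℤ × U)) ⧸ Rel k U →ₗ[k] MonoidAlgebra k (List (ℤ × U)) ⧸ Rel k U :=
  (Rel k U).liftQ (s0 x) (s0_Rel x)

private theorem s1_wcl (x : ℤ × U) (w : List (ℤ × U)) :
    s1 (k := k) x (wcl w) = wcl (w ++ [x]) := by
  unfold s1
  rw [wcl, Submodule.mkQ_apply, Submodule.liftQ_apply, s0_single, one_smul]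

private theorem qext {Z : Type} [AddCommGroup Z] [Module k Z]
    {F G : MonoidAlgebra k (List (ℤ × U)) ⧸ Rel k U →ₗ[k] Z} (h : ∀ w, F (wcl w) = G (wcl w)) :
    F = G := by
  apply Submodule.linearMap_qext
  apply LinearMap.ext
  intro t
  induction t using MonoidAlgebra.induction_linear with
  | zero => rw [map_zero, map_zero]
  | add a b ha hb => rw [map_add, map_add, ha, hb]
  | single w c =>
    rw [LinearMap.comp_apply, LinearMap.comp_apply, mkQ_single, map_smul, map_smul, h]

/-- append a letter, as a linear map -/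
private def s2 (i : ℤ) : U →ₗ[k] (MonoidAlgebra k (List (ℤ × U)) ⧸ Rel k U →ₗ[k]
    MonoidAlgebra k (List (ℤ × U)) ⧸ Rel k U) :=
  (lin_of (fun u => s1 (k := k) (i, u)) (by
    intro u v c
    apply qext
    intro w
    rw [LinearMap.add_apply, LinearMap.smul_apply, s1_wcl, s1_wcl, s1_wcl]
    exact wcl_mid w [] i u v c)).mk'

private theorem s2_wcl (i : ℤ) (u : U) (w : List (ℤ × U)) :
    s2 (k := k) i u (wcl w) = wcl (w ++ [(i, u)]) := s1_wcl (i, u) w

end quotient

namespace Pres

variable {A : ZDGA k} {mul : U → U → U} {d : ℤ → U → U} {g : ℤ → Set U} (P : Pres A mul d g)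

include P

theorem ρ_gr {i : ℤ} {u : U} (hu : u ∈ g i) : P.ρ u ∈ A.gr i := by
  obtain ⟨a, ha, rfl⟩ := (P.gr i u).1 hu
  rw [P.ρj]
  exact ha

theorem jρ {i : ℤ} {u : U} (hu : u ∈ g i) : P.j (P.ρ u) = u := by
  obtain ⟨a, _, rfl⟩ := (P.gr i u).1 hu
  rw [P.ρj]

theorem mem_Rel {t : MonoidAlgebra k (List (ℤ × U))} (ht : t ∈ HomS k U g)
    (h : th P.ρ t = 0) : t ∈ Rel k U := by
  let Λ : Wd k A.V A.V →ₗ[k] MonoidAlgebra k (List (ℤ × U)) ⧸ Rel k U :=
    recW (ofInt A.internal (fun i => n1 i ∘ₗ P.j)) 0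
      (ofInt A.internal (fun i => s2 i ∘ₗ P.j)).flip
  have key : ∀ w : List (ℤ × U), w ≠ [] → (∀ x ∈ w, x.2 ∈ g x.1) →
      Λ (thw P.ρ w) = wcl w := by
    intro w
    induction w using List.reverseRecOn with
    | nil => intro h; exact absurd rfl h
    | append_singleton w x ih =>
      intro _ hg
      have hx : x.2 ∈ g x.1 := hg x (by simp)
      by_cases hw : w = []
      · subst hw
        change recW _ _ _ (nil (P.ρ x.2)) = wcl [x]
        rw [recW_nil, ofInt_apply A.internal _ (P.ρ_gr hx), LinearMap.comp_apply, P.jρ hx,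
          n1_apply]
      · have h1 := ih hw (fun y hy => hg y (by simp [hy]))
        rw [thw_append P.ρ hw]
        change recW _ _ _ (snoc (thw P.ρ w) (P.ρ x.2)) = _
        rw [recW_snoc, LinearMap.zero_apply, LinearMap.zero_apply, zero_add]
        change (ofInt A.internal (fun i => s2 i ∘ₗ P.j)) (P.ρ x.2) (Λ (thw P.ρ w)) = _
        rw [h1, ofInt_apply A.internal _ (P.ρ_gr hx), LinearMap.comp_apply, P.jρ hx, s2_wcl]
  have main : HomS k U g ≤ LinearMap.ker (Λ ∘ₗ th P.ρ - (Rel k U).mkQ) := by
    unfold HomS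
    rw [Submodule.span_le]
    rintro _ ⟨w, hw, hg, rfl⟩
    rw [SetLike.mem_coe, LinearMap.mem_ker, LinearMap.sub_apply, LinearMap.comp_apply, th_single,
      one_smul, key w hw hg, mkQ_single, one_smul, sub_self]
  have h1 := LinearMap.mem_ker.1 (main ht)
  rw [LinearMap.sub_apply, LinearMap.comp_apply, h, map_zero, zero_sub, neg_eq_zero,
    Submodule.mkQ_apply, Submodule.Quotient.mk_eq_zero] at h1
  exact h1

end Pres

end KPub
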