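import Mathlib
import Pool.Agent.H94.PB.Wrd
import Pool.Agent.H94.NC.Main

/-!
# Bridge, dg algebras: the public predicates for the underlying ring of a `ZDGA`

The ring and algebra structures on `A.V` are `DGA.instRing`, `DGA.instAlgebra` (`H16/NC/SD.lean`);
the module structure of `DGA.instAlgebra` is the given one (`rfl`).
-/

set_option autoImplicit false

open scoped TensorProduct

noncomputable section

namespace KPub

open NC NC.Wd

variable {k : Type} [Field k] (A : ZDGA k)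

/-- the sign `E` and `(-1)^i` -/
theorem E_zpow (X : ZD k) {i : ℤ} {v : X.V} (hv : v ∈ X.gr i) : X.E v = (-1 : k) ^ i • v := by
  rw [X.E_gr i v hv]
  by_cases h : Even i
  · rw [if_pos h, h.neg_one_zpow, one_smul]
  · rw [if_neg h, (Int.not_even_iff_odd.1 h).neg_one_zpow, neg_one_smul]

theorem isDGA : IsDGA k A.V A.gr A.D :=
  ⟨⟨A.internal, A.D_gr, A.DD⟩, A.one_gr, A.mul_gr, fun i a ha b => by
    change A.D (A.mul a b) = A.mul (A.D a) b + (-1 : k) ^ i • A.mul a (A.D b)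
    rw [A.D_mul]
    have h1 : A.E a = (-1 : k) ^ i • a := E_zpow A.toZD ha
    rw [h1, map_smul, LinearMap.smul_apply]⟩

/-- the presentation of `A` by itself -/
def presA : Pres A (fun a b : A.V => a * b) (fun _ a => A.D a) (fun i => (A.gr i : Set A.V)) where
  j := LinearMap.id
  ρ := LinearMap.id
  ρj := fun _ => rfl
  gr := fun i u => ⟨fun h => ⟨u, h, rfl⟩, fun ⟨_, ha, h⟩ => h ▸ ha⟩
  mul := fun _ _ => rfl
  d := fun _ _ _ => rfl

/-- the bimodule axioms -/
theorem isBim_of (M : ZBim A) : IsBim k A.V A.gr A.D A.V A.gr A.D M.V M.gr M.D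
    (fun a m => M.l a m) (fun m a => M.r m a) := by
  refine ⟨⟨M.internal, M.D_gr, M.DD⟩, fun a => (M.l a).isLinear, fun v => (M.l.flip v).isLinear,
    fun v => (M.r v).isLinear, fun a => (M.r.flip a).isLinear, M.l_one, M.r_one, M.l_mul,
    M.r_mul, M.l_r, fun i j a ha v hv => ⟨M.l_gr i j a ha v hv, ?_⟩,
    fun i j v hv a ha => ⟨M.r_gr i j v hv a ha, ?_⟩⟩
  · rw [M.D_l]
    have h1 : A.E a = (-1 : k) ^ i • a := E_zpow A.toZD ha
    rw [h1, map_smul, LinearMap.smul_apply]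
  · rw [M.D_r]
    have h1 : M.E v = (-1 : k) ^ i • v := E_zpow M.toZD hv
    rw [h1, map_smul, LinearMap.smul_apply]

theorem isSemiFree_of (M : ZBim A) {I : Type} (h : M.IsSemiFree I) :
    IsSemiFree k A.V A.V M.V M.gr M.D (fun a m => M.l a m) (fun m a => M.r m a) I := by
  obtain ⟨x, deg, rk, h1, h2, h3⟩ := h
  refine ⟨x, deg, rk, LinearEquiv.ofBijective (M.comb x) h2, fun i a b => ?_,
    fun i => ⟨h1 i, h3 i⟩⟩
  rw [LinearEquiv.ofBijective_apply]
  unfold ZBim.comb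
  rw [Finsupp.lsum_single]
  rfl

theorem isPerf_of (M : ZBim A) (h : M.IsPerfect) :
    IsPerf k A.V A.gr A.D A.V A.gr A.D M.V M.gr M.D (fun a m => M.l a m) (fun m a => M.r m a) := by
  obtain ⟨X, F, n, φ, hφ, hF, s, r, h, h1, h2, h3, h4⟩ := h
  refine ⟨X.V, inferInstance, inferInstance, X.gr, X.D, fun a m => X.l a m, fun m a => X.r m a,
    F.V, inferInstance, inferInstance, F.gr, F.D, fun a m => F.l a m, fun m a => F.r m a, n,
    φ.f, isBim_of A X, isBim_of A F, ⟨φ.l, φ.r, φ.D, φ.gr⟩, hφ, isSemiFree_of A F hF,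
    s.f, r.f, h, ⟨s.l, s.r, s.D, s.gr⟩, ⟨r.l, r.r, r.D, r.gr⟩, h1, fun i a ha x => ?_, h3, h4⟩
  have h5 : A.E a = (-1 : k) ^ i • a := E_zpow A.toZD ha
  change h (X.l a x) = (-1 : k) ^ i • X.l a (h x)
  rw [h2, h5, map_smul, LinearMap.smul_apply]

theorem isSaturated (h : A.IsSaturated) : IsSaturated k A.V A.gr A.D :=
  ⟨isPerf_of A A.diag h.1, h.2⟩

end KPub
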