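import Mathlib
import Pool.Agent.H94.PB.Wrd

/-!
# Bridge, operators: parities and `b'` on words

All statements by induction on the list from the right (`List.reverseRecOn`, `thw_append`),
together with the recursions `bp_nil`, `bp_snoc`, `cc_nil`, `cc_snoc_h`, `rot_nil`, `rot_snoc`,
`nrm_apply`, `dec_nil`, `dec_snoc`, `cfl_h`, `tl_nil`, `tl_snoc`, `hd_nil`, `hd_snoc`, `cat_nil`,
`cat_snoc` of `CWord`, `CFl`, `CBp`.

* `hs_thw`: the suspended parity of `thw w` is that of `sdeg w`; so `wS (thw w) = ± thw w`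
  (`Hs.S`), `sg k b` is the sign.
* `opB'`: for `w ≠ []` one has `opB' (w ++ [x]) = (opB' w with x appended to every word) +
  (-1)^(sdeg w) (w ++ [dL x]) + (-1)^(sdeg w' + |y|) (w' ++ [y x])` for `w = w' ++ [y]`;
  sums over `Finset.range (w.length + 1)` are split with `Finset.sum_range_succ`, `take`, `drop`,
  `getD` of `w ++ [x]` with `List.take_append_of_le_length` and so on.
-/

set_option autoImplicit false

open scoped TensorProduct

noncomputable section

namespace KPub

open NC NC.Wd

variable {k : Type} [Field k] {U : Type} [AddCommGroup U] [Module k U] {A : ZDGA k}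
  {mul : U → U → U} {d : ℤ → U → U} {g : ℤ → Set U}

namespace Pres

variable (P : Pres A mul d g)

include P

/-- letters in the image: `dL`, `mulL` of homogeneous letters are homogeneous -/
theorem dL_mem {x : ℤ × U} (hx : x.2 ∈ g x.1) : (dL U d x).2 ∈ g (dL U d x).1 ∧
    P.ρ (dL U d x).2 = A.D (P.ρ x.2) := by
  have ha := P.ρ_gr hx
  have hd := P.d x.1 _ ha
  rw [P.jρ hx] at hd
  have e : (dL U d x).2 = P.j (A.D (P.ρ x.2)) := hd
  rw [e]
  refine ⟨?_, P.ρj _⟩
  exact (P.gr _ _).2 ⟨_, A.D_gr _ _ ha, rfl⟩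

theorem mulL_mem {x y : ℤ × U} (hx : x.2 ∈ g x.1) (hy : y.2 ∈ g y.1) :
    (mulL U mul x y).2 ∈ g (mulL U mul x y).1 ∧
      P.ρ (mulL U mul x y).2 = A.mul (P.ρ x.2) (P.ρ y.2) := by
  have ha := P.ρ_gr hx
  have hb := P.ρ_gr hy
  have hm := P.mul (P.ρ x.2) (P.ρ y.2)
  rw [P.jρ hx, P.jρ hy] at hm
  have e : (mulL U mul x y).2 = P.j (A.mul (P.ρ x.2) (P.ρ y.2)) := hm
  rw [e]
  refine ⟨?_, P.ρj _⟩
  exact (P.gr _ _).2 ⟨_, A.mul_gr _ _ _ ha _ hb, rfl⟩

omit P in
private theorem Ops_po_add (m n : ℤ) :
    decide (¬ Even (m + n)) = xor (decide (¬ Even m)) (decide (¬ Even n)) := by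
  by_cases h1 : Even m <;> by_cases h2 : Even n <;> simp [Int.even_add, h1, h2]

omit P in
private theorem Ops_po_succ (n : ℤ) : decide (¬ Even (n + 1)) = !decide (¬ Even n) := by
  by_cases h1 : Even n <;> simp [Int.even_add, h1]

omit P in
private theorem Ops_sg (k : Type) [Field k] (n : ℤ) : ((-1 : k) ^ n) = sg k (decide (¬ Even n)) := by
  by_cases h1 : Even n
  · rw [h1.neg_one_zpow]; simp [h1]
  · rw [(Int.not_even_iff_odd.1 h1).neg_one_zpow]; simp [h1]

omit P in
private theorem Ops_hm {i : ℤ} {v : A.V} (h : v ∈ A.gr i) : A.Hm v (decide (¬ Even i)) := by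
  unfold SD.Hm
  rw [A.P_gr i v h]
  by_cases h1 : Even i <;> simp [h1]

omit P in
private theorem Ops_sdeg_append (w : List (ℤ × U)) (x : ℤ × U) :
    sdeg U (w ++ [x]) = sdeg U w + (x.1 + 1) := by
  simp [sdeg]

theorem hs_thw {w : List (ℤ × U)} (hw : w ≠ []) (h : ∀ x ∈ w, x.2 ∈ g x.1) :
    Hs A.toSD A.toSD (thw P.ρ w) (decide (¬ Even (sdeg U w))) := by
  induction w using List.reverseRecOn with
  | nil => exact absurd rfl hw
  | append_singleton w x ih =>
    have hx : P.ρ x.2 ∈ A.gr x.1 := P.ρ_gr (h x (by simp))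
    by_cases hw0 : w = []
    · subst hw0
      have h1 := Hs.nil (R := A.toSD) (Ops_hm hx)
      rw [List.nil_append, thw_one]
      have e : sdeg U [x] = x.1 + 1 := by simp [sdeg]
      rw [e, Ops_po_succ]
      exact h1
    · rw [thw_append _ hw0, Ops_sdeg_append, Ops_po_add, Ops_po_succ]
      exact (ih hw0 fun y hy => h y (by simp [hy])).snoc (Ops_hm hx)

/-- the images of the terms of `b'` -/
private def OpsF (P : Pres A mul d g) (w : List (ℤ × U)) : Wd k A.V A.V :=
  ∑ i ∈ Finset.range w.length, ((-1 : k) ^ sdeg U (w.take i)) •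
      thw P.ρ (w.take i ++ dL U d (w.getD i 0) :: w.drop (i + 1)) +
    ∑ i ∈ Finset.range (w.length - 1), ((-1 : k) ^ (sdeg U (w.take i) + (w.getD i 0).1)) •
      thw P.ρ (w.take i ++ mulL U mul (w.getD i 0) (w.getD (i + 1) 0) :: w.drop (i + 2))

private theorem Ops_th (w : List (ℤ × U)) : th P.ρ (opB' k U mul d w) = OpsF P w := by
  unfold opB' OpsF
  rw [map_add, map_sum, map_sum]
  simp only [th_single]

private theorem Ops_tl {w : List (ℤ × U)} {x y : ℤ × U} (hx : x.2 ∈ g x.1) (hy : y.2 ∈ g y.1) :
    thw P.ρ (w ++ [mulL U mul y x]) = tlA A.toDGA (thw P.ρ (w ++ [y])) (P.ρ x.2) := by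
  have hm := (P.mulL_mem hy hx).2
  by_cases hw : w = []
  · subst hw
    rw [List.nil_append, List.nil_append, thw_one, thw_one, hm]
    exact (tl_nil _ _ _ _).symm
  · rw [thw_append _ hw, thw_append _ hw, hm]
    exact (tl_snoc _ _ _ _ _).symm

private theorem Ops_F {w : List (ℤ × U)} (hw : w ≠ []) (h : ∀ x ∈ w, x.2 ∈ g x.1) :
    OpsF P w = bp A.toDGA (thw P.ρ w) := by
  induction w using List.reverseRecOn with
  | nil => exact absurd rfl hw
  | append_singleton w x ih =>
    have hx0 : x.2 ∈ g x.1 := h x (by simp)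
    have hdx := (P.dL_mem hx0).2
    by_cases hw0 : w = []
    · subst hw0
      unfold OpsF
      rw [List.nil_append, thw_one]
      simp only [List.length_singleton, Finset.sum_range_one, List.take_zero, sdeg, List.map_nil,
        List.sum_nil, zpow_zero, one_smul, List.nil_append, Nat.sub_self, Finset.range_zero,
        Finset.sum_empty, add_zero, zero_add]
      have e : [x].getD 0 0 = x := rfl
      have e2 : List.drop 1 [x] = [] := rfl
      rw [e, e2, thw_one, hdx, bp_nil]
    · have hh : ∀ y ∈ w, y.2 ∈ g y.1 := fun y hy => h y (by simp [hy])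
      have hs := P.hs_thw hw0 hh
      rw [thw_append _ hw0, bp_snoc_h hs, ← ih hw0 hh, ← Ops_sg]
      obtain ⟨w', y, rfl⟩ : ∃ w' y, w = w' ++ [y] :=
        ⟨w.dropLast, w.getLast hw0, (List.dropLast_append_getLast hw0).symm⟩
      have hy0 : y.2 ∈ g y.1 := hh y (by simp)
      set w := w' ++ [y] with hwdef
      have hlen : w.length = w'.length + 1 := by simp [hwdef]
      unfold OpsF
      rw [List.length_append, List.length_singleton, Nat.add_sub_cancel]
      rw [Finset.sum_range_succ]
      have e1 : ∑ i ∈ Finset.range w.length, ((-1 : k) ^ sdeg U ((w ++ [x]).take i)) •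
          thw P.ρ ((w ++ [x]).take i ++ dL U d ((w ++ [x]).getD i 0) :: (w ++ [x]).drop (i + 1)) =
          snoc (∑ i ∈ Finset.range w.length, ((-1 : k) ^ sdeg U (w.take i)) •
            thw P.ρ (w.take i ++ dL U d (w.getD i 0) :: w.drop (i + 1))) (P.ρ x.2) := by
        rw [map_sum, LinearMap.sum_apply]
        refine Finset.sum_congr rfl fun i hi => ?_
        rw [Finset.mem_range] at hi
        rw [List.take_append_of_le_length hi.le, List.drop_append_of_le_length (by omega),
          List.getD_append _ _ _ _ hi, map_smul, LinearMap.smul_apply]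
        congr 1
        have e : w.take i ++ dL U d (w.getD i 0) :: (w.drop (i + 1) ++ [x]) =
            (w.take i ++ dL U d (w.getD i 0) :: w.drop (i + 1)) ++ [x] := by simp
        rw [e, thw_append _ (by simp)]
      have e2 : (w ++ [x]).take w.length = w := by simp
      have e3 : (w ++ [x]).getD w.length 0 = x := by
        rw [List.getD_append_right _ _ _ _ le_rfl]; simp
      have e4 : (w ++ [x]).drop (w.length + 1) = [] := by simp
      rw [e1, e2, e3, e4, thw_append _ hw0, hdx]
      have e5 : ∑ i ∈ Finset.range w.length, ((-1 : k) ^ (sdeg U ((w ++ [x]).take i) +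
            ((w ++ [x]).getD i 0).1)) •
          thw P.ρ ((w ++ [x]).take i ++ mulL U mul ((w ++ [x]).getD i 0)
            ((w ++ [x]).getD (i + 1) 0) :: (w ++ [x]).drop (i + 2)) =
          snoc (∑ i ∈ Finset.range (w.length - 1), ((-1 : k) ^ (sdeg U (w.take i) +
            (w.getD i 0).1)) • thw P.ρ (w.take i ++ mulL U mul (w.getD i 0)
              (w.getD (i + 1) 0) :: w.drop (i + 2))) (P.ρ x.2) -
            ((-1 : k) ^ sdeg U w) • tlA A.toDGA (thw P.ρ w) (P.ρ x.2) := by
        have hr : Finset.range w.length = Finset.range (w'.length + 1) := by rw [hlen]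
        rw [hr, Finset.sum_range_succ, hlen, Nat.add_sub_cancel, map_sum, LinearMap.sum_apply,
          sub_eq_add_neg]
        congr 1
        · refine Finset.sum_congr rfl fun i hi => ?_
          rw [Finset.mem_range] at hi
          rw [List.take_append_of_le_length (by omega), List.drop_append_of_le_length (by omega),
            List.getD_append w [x] 0 i (by omega), List.getD_append w [x] 0 (i + 1) (by omega),
            map_smul, LinearMap.smul_apply]
          congr 1
          have e : w.take i ++ mulL U mul (w.getD i 0) (w.getD (i + 1) 0) ::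
              (w.drop (i + 2) ++ [x]) = (w.take i ++ mulL U mul (w.getD i 0)
                (w.getD (i + 1) 0) :: w.drop (i + 2)) ++ [x] := by simp
          rw [e, thw_append _ (by simp)]
        · have f1 : (w ++ [x]).take w'.length = w' := by simp [hwdef]
          have f2 : (w ++ [x]).getD w'.length 0 = y := by
            rw [hwdef, List.append_assoc, List.getD_append_right _ _ _ _ le_rfl]; simp
          have f3 : (w ++ [x]).getD (w'.length + 1) 0 = x := by rw [← hlen]; exact e3
          have f4 : (w ++ [x]).drop (w'.length + 2) = [] := by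
            rw [List.drop_eq_nil_iff]; simp [hlen]
          rw [f1, f2, f3, f4, P.Ops_tl hx0 hy0, ← hwdef]
          have f5 : sdeg U w = (sdeg U w' + y.1) + 1 := by
            rw [hwdef, Ops_sdeg_append]; ring
          have hne : (-1 : k) ≠ 0 := neg_ne_zero.2 one_ne_zero
          rw [f5, zpow_add_one₀ hne, mul_neg_one, neg_smul, neg_neg]
      rw [e5]
      simp only [map_add, LinearMap.add_apply]
      abel

private theorem Ops_getD_mem {w : List (ℤ × U)} (h : ∀ x ∈ w, x.2 ∈ g x.1) {i : ℕ}
    (hi : i < w.length) : (w.getD i 0).2 ∈ g (w.getD i 0).1 := by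
  apply h
  rw [List.getD_eq_getElem _ _ hi]
  exact List.getElem_mem hi

private theorem Ops_single_mem {w : List (ℤ × U)} (hw : w ≠ []) (h : ∀ x ∈ w, x.2 ∈ g x.1)
    (c : k) : (MonoidAlgebra.single w c : MonoidAlgebra k (List (ℤ × U))) ∈ HomS k U g := by
  have e : (MonoidAlgebra.single w c : MonoidAlgebra k (List (ℤ × U))) =
      c • MonoidAlgebra.single w 1 := by
    rw [MonoidAlgebra.smul_single, smul_eq_mul, mul_one]
  rw [e]
  exact Submodule.smul_mem _ _ (Submodule.subset_span ⟨w, hw, h, rfl⟩)

theorem th_opB' {w : List (ℤ × U)} (hw : w ≠ []) (h : ∀ x ∈ w, x.2 ∈ g x.1) :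
    opB' k U mul d w ∈ HomS k U g ∧ th P.ρ (opB' k U mul d w) = bp A.toDGA (thw P.ρ w) := by
  refine ⟨?_, ?_⟩
  · unfold opB'
    refine Submodule.add_mem _ (Submodule.sum_mem _ fun i hi => ?_)
      (Submodule.sum_mem _ fun i hi => ?_)
    · rw [Finset.mem_range] at hi
      refine P.Ops_single_mem (by simp) (fun x hx => ?_) _
      rw [List.mem_append, List.mem_cons] at hx
      rcases hx with hx | rfl | hx
      · exact h x (List.mem_of_mem_take hx)
      · exact (P.dL_mem (P.Ops_getD_mem h hi)).1
      · exact h x (List.mem_of_mem_drop hx)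
    · rw [Finset.mem_range] at hi
      refine P.Ops_single_mem (by simp) (fun x hx => ?_) _
      rw [List.mem_append, List.mem_cons] at hx
      rcases hx with hx | rfl | hx
      · exact h x (List.mem_of_mem_take hx)
      · exact (P.mulL_mem (P.Ops_getD_mem h (by omega)) (P.Ops_getD_mem h (by omega))).1
      · exact h x (List.mem_of_mem_drop hx)
  · rw [P.Ops_th, P.Ops_F hw h]

end Pres

end KPub
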