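import Mathlib
import Pool.Agent.H94.PB.Ops

/-!
# Bridge, operators: `b`, `1 - t`, `N` on words

By induction on the list from the right (`List.reverseRecOn`, `thw_append`), together with the
recursions `cc_nil`, `cc_snoc_h`, `rot_nil`, `rot_snoc`, `nrm_apply`, `dec_nil`, `dec_snoc`,
`cfl_h`, `cflT_tmul`, `hd_nil`, `hd_snoc`, `cat_nil`, `cat_snoc` of `CWord`, `CFl`, `CBp` and
`hs_thw`, `mulL_mem`, `th_opB'` of `Ops`.  Concatenation: `thw (v ++ w) = cat (thw v) (thw w)` for
nonempty `v`, `w`.  `opN`: `dec (thw w) = Σ_{0 < i < length} thw (take i w) ⊗ thw (drop i w)`.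
-/

set_option autoImplicit false

open scoped TensorProduct

noncomputable section

namespace KPub

open NC NC.Wd

variable {k : Type} [Field k] {U : Type} [AddCommGroup U] [Module k U] {A : ZDGA k}
  {mul : U → U → U} {d : ℤ → U → U} {g : ℤ → Set U}

private theorem obs_sg (n : ℤ) : sg k (decide (¬ Even n)) = (-1 : k) ^ n := by
  by_cases hn : Even n
  · rw [hn.neg_one_zpow]
    simp [hn]
  · rw [(Int.not_even_iff_odd.1 hn).neg_one_zpow]
    simp [hn]

private theorem obs_sg_and (m n : ℤ) :
    sg k (decide (¬ Even m) && decide (¬ Even n)) = (-1 : k) ^ (m * n) := by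
  rw [← obs_sg]
  congr 1
  by_cases hm : Even m <;> by_cases hn : Even n <;> simp [hm, hn, Int.even_mul]

private theorem obs_sg_cc (i n : ℤ) :
    - sg k (!(!decide (Even i)) && !decide (¬ Even n)) = (-1 : k) ^ (i + (i + 1) * n) := by
  rw [← obs_sg]
  by_cases hm : Even i <;> by_cases hn : Even n <;>
    simp [hm, hn, Int.even_mul, Int.even_add, parity_simps]

omit [AddCommGroup U] [Module k U] in
private theorem obs_mem {w : List (ℤ × U)} (hw : w ≠ []) (h : ∀ x ∈ w, x.2 ∈ g x.1) (c : k) :
    MonoidAlgebra.single w c ∈ HomS k U g := by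
  have h1 : MonoidAlgebra.single w c
      = c • (MonoidAlgebra.single w 1 : MonoidAlgebra k (List (ℤ × U))) := by
    simp
  rw [h1]
  exact Submodule.smul_mem _ _ (Submodule.subset_span ⟨w, hw, h, rfl⟩)

private theorem obs_cat {V : Type} [AddCommGroup V] [Module k V] (ρ : U →ₗ[k] V)
    {v : List (ℤ × U)} (hv : v ≠ []) (w : List (ℤ × U)) (hw : w ≠ []) :
    thw ρ (v ++ w) = cat (thw ρ v) (thw ρ w) := by
  induction w using List.reverseRecOn with
  | nil => exact absurd rfl hw
  | append_singleton w x ih =>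
    by_cases h0 : w = []
    · subst h0
      rw [List.nil_append, thw_one, cat_nil, thw_append ρ hv]
    · have h1 : v ++ w ≠ [] := by simp [hv]
      rw [← List.append_assoc, thw_append ρ h1, ih h0, thw_append ρ h0, cat_snoc]

private theorem obs_dec {V : Type} [AddCommGroup V] [Module k V] (ρ : U →ₗ[k] V)
    (w : List (ℤ × U)) (hw : w ≠ []) :
    dec (thw ρ w) = ∑ i ∈ Finset.range (w.length - 1),
      thw ρ (w.take (i + 1)) ⊗ₜ[k] thw ρ (w.drop (i + 1)) := by
  induction w using List.reverseRecOn with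
  | nil => exact absurd rfl hw
  | append_singleton w x ih =>
    by_cases h0 : w = []
    · subst h0
      simp [thw_one]
    · obtain ⟨n, hn⟩ : ∃ n, w.length = n + 1 :=
        Nat.exists_eq_succ_of_ne_zero (fun h => h0 (List.length_eq_zero_iff.1 h))
      rw [thw_append ρ h0, dec_snoc, ih h0, map_sum]
      have h2 : (w ++ [x]).length - 1 = n + 1 := by simp [hn]
      have h3 : w.length - 1 = n := by omega
      rw [h2, h3, Finset.sum_range_succ, add_comm]
      congr 1
      · refine Finset.sum_congr rfl fun i hi => ?_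
        have hi' : i < n := Finset.mem_range.1 hi
        have h4 : (w ++ [x]).take (i + 1) = w.take (i + 1) :=
          List.take_append_of_le_length (by omega)
        have h5 : (w ++ [x]).drop (i + 1) = w.drop (i + 1) ++ [x] :=
          List.drop_append_of_le_length (by omega)
        have h6 : w.drop (i + 1) ≠ [] := by
          intro h
          have := congrArg List.length h
          simp at this
          omega
        rw [h4, h5, thw_append ρ h6, LinearMap.lTensor_tmul, LinearMap.flip_apply]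
      · have h4 : (w ++ [x]).take (n + 1) = w := by
          rw [← hn]
          simp
        have h5 : (w ++ [x]).drop (n + 1) = [x] := by
          rw [← hn]
          simp
        rw [h4, h5, thw_one]

namespace Pres

variable (P : Pres A mul d g)

include P

private theorem obs_hd {x y : ℤ × U} (hx : x.2 ∈ g x.1) (hy : y.2 ∈ g y.1) (w : List (ℤ × U)) :
    thw P.ρ (mulL U mul x y :: w) = hd A.toDGA (P.ρ x.2) (thw P.ρ (y :: w)) := by
  induction w using List.reverseRecOn with
  | nil => rw [thw_one, thw_one, hd_nil, (P.mulL_mem hx hy).2]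
  | append_singleton w z ih =>
    have h1 : mulL U mul x y :: (w ++ [z]) = (mulL U mul x y :: w) ++ [z] := rfl
    have h2 : y :: (w ++ [z]) = (y :: w) ++ [z] := rfl
    rw [h1, h2, thw_append _ (by simp), thw_append _ (by simp), ih, hd_snoc]

/-- rotations -/
private theorem obs_rotw {w : List (ℤ × U)} (h : ∀ x ∈ w, x.2 ∈ g x.1) {i : ℕ} (h0 : 0 < i)
    (hi : i < w.length) : rotw k U i w ∈ HomS k U g ∧
      th P.ρ (rotw k U i w) = cfl A.toSD (thw P.ρ (w.take i)) (thw P.ρ (w.drop i)) := by
  have ht : w.take i ≠ [] := by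
    intro h
    have := congrArg List.length h
    simp at this
    rcases this with h | h
    · omega
    · subst h
      simp at hi
  have hd : w.drop i ≠ [] := by
    intro h
    have := congrArg List.length h
    simp at this
    omega
  have hht : ∀ x ∈ w.take i, x.2 ∈ g x.1 := fun x hx => h x (List.mem_of_mem_take hx)
  have hhd : ∀ x ∈ w.drop i, x.2 ∈ g x.1 := fun x hx => h x (List.mem_of_mem_drop hx)
  have hap : w.drop i ++ w.take i ≠ [] := by simp [ht]
  have hh : ∀ x ∈ w.drop i ++ w.take i, x.2 ∈ g x.1 := by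
    intro x hx
    rcases List.mem_append.1 hx with hx | hx
    · exact hhd x hx
    · exact hht x hx
  refine ⟨obs_mem hap hh _, ?_⟩
  rw [cfl_h (P.hs_thw ht hht) (P.hs_thw hd hhd), rotw, th_single, obs_cat _ hd _ ht, obs_sg_and]

private theorem obs_rot0 {w : List (ℤ × U)} (hw : w ≠ []) (h : ∀ x ∈ w, x.2 ∈ g x.1) :
    rotw k U 0 w ∈ HomS k U g ∧ th P.ρ (rotw k U 0 w) = thw P.ρ w := by
  have h1 : rotw k U 0 w = MonoidAlgebra.single w 1 := by
    simp [rotw, sdeg]
  rw [h1]
  refine ⟨obs_mem hw h _, ?_⟩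
  rw [th_single, one_smul]

theorem th_opB {w : List (ℤ × U)} (hw : w ≠ []) (h : ∀ x ∈ w, x.2 ∈ g x.1) :
    opB k U mul d w ∈ HomS k U g ∧ th P.ρ (opB k U mul d w) = bb A.toDGA (thw P.ρ w) := by
  obtain ⟨h1, h2⟩ := P.th_opB' hw h
  rcases List.eq_nil_or_concat w with h0 | ⟨w', x, h0⟩
  · exact absurd h0 hw
  rw [List.concat_eq_append] at h0
  by_cases h3 : w' = []
  · subst h3
    subst h0
    have h4 : opB k U mul d ([] ++ [x]) = opB' k U mul d ([] ++ [x]) := by
      simp [opB]
    rw [h4]
    refine ⟨h1, ?_⟩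
    rw [h2, bb_apply, List.nil_append, thw_one, cc_nil, add_zero]
  · obtain ⟨y, w'', rfl⟩ := List.exists_cons_of_ne_nil h3
    have hx : x.2 ∈ g x.1 := h x (by simp [h0])
    have hy : y.2 ∈ g y.1 := h y (by simp [h0])
    have hw' : ∀ z ∈ y :: w'', z.2 ∈ g z.1 := fun z hz => h z (by
      rw [h0]
      exact List.mem_append_left _ hz)
    have h4 : opB k U mul d w = opB' k U mul d w + MonoidAlgebra.single
        (mulL U mul x y :: w'') ((-1) ^ (x.1 + (x.1 + 1) * sdeg U (y :: w''))) := by
      have e1 : (y :: w'' ++ [x]).getLastD 0 = x := List.getLastD_concat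
      have e2 : (y :: w'' ++ [x]).dropLast = y :: w'' := List.dropLast_concat
      have e3 : (y :: w'' ++ [x]).tail.dropLast = w'' := List.dropLast_concat
      have e4 : (y :: w'' ++ [x]).headD 0 = y := rfl
      have e5 : ¬ (y :: w'' ++ [x]).length < 2 := by simp
      rw [h0, opB, if_neg e5, e1, e2, e3, e4]
    have h5 : ∀ z ∈ mulL U mul x y :: w'', z.2 ∈ g z.1 := by
      intro z hz
      rcases List.mem_cons.1 hz with hz | hz
      · rw [hz]
        exact (P.mulL_mem hx hy).1
      · exact hw' z (List.mem_cons_of_mem _ hz)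
    rw [h4]
    refine ⟨add_mem h1 (obs_mem (by simp) h5 _), ?_⟩
    rw [map_add, h2, th_single, bb_apply, P.obs_hd hx hy, h0, thw_append _ h3,
      cc_snoc_h (P.hs_thw h3 hw') (A.toZD.hm_gr (P.ρ_gr hx)), obs_sg_cc]

theorem th_opT {w : List (ℤ × U)} (hw : w ≠ []) (h : ∀ x ∈ w, x.2 ∈ g x.1) :
    opT k U w ∈ HomS k U g ∧ th P.ρ (opT k U w) = thw P.ρ w - rot A.toSD (thw P.ρ w) := by
  rcases List.eq_nil_or_concat w with h0 | ⟨w', x, h0⟩
  · exact absurd h0 hw
  rw [List.concat_eq_append] at h0
  have h1 : th P.ρ (MonoidAlgebra.single w 1) = thw P.ρ w := by rw [th_single, one_smul]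
  unfold opT
  by_cases h3 : w' = []
  · subst h3
    have hl : w.length - 1 = 0 := by simp [h0]
    obtain ⟨h4, h5⟩ := P.obs_rot0 hw h
    rw [hl]
    refine ⟨sub_mem (obs_mem hw h _) h4, ?_⟩
    rw [map_sub, h1, h5, h0, List.nil_append, thw_one, rot_nil]
  · have hl : w.length - 1 = w'.length := by simp [h0]
    have hp : 0 < w'.length := List.length_pos_iff.2 h3
    obtain ⟨h4, h5⟩ := P.obs_rotw h (i := w'.length) hp (by rw [h0]; simp)
    rw [hl]
    refine ⟨sub_mem (obs_mem hw h _) h4, ?_⟩
    rw [map_sub, h1, h5, h0, List.take_left, List.drop_left, thw_one, thw_append _ h3, rot_snoc]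

theorem th_opN {w : List (ℤ × U)} (hw : w ≠ []) (h : ∀ x ∈ w, x.2 ∈ g x.1) :
    opN k U w ∈ HomS k U g ∧ th P.ρ (opN k U w) = nrm A.toSD (thw P.ρ w) := by
  obtain ⟨n, hn⟩ : ∃ n, w.length = n + 1 :=
    Nat.exists_eq_succ_of_ne_zero (fun h => hw (List.length_eq_zero_iff.1 h))
  have h1 : opN k U w = rotw k U 0 w + ∑ i ∈ Finset.range n, rotw k U (i + 1) w := by
    rw [opN, hn, Finset.sum_range_succ', add_comm]
  obtain ⟨h2, h3⟩ := P.obs_rot0 hw h
  have h4 : ∀ i ∈ Finset.range n, rotw k U (i + 1) w ∈ HomS k U g ∧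
      th P.ρ (rotw k U (i + 1) w)
        = cfl A.toSD (thw P.ρ (w.take (i + 1))) (thw P.ρ (w.drop (i + 1))) := by
    intro i hi
    have := Finset.mem_range.1 hi
    exact P.obs_rotw h (by omega) (by omega)
  rw [h1]
  refine ⟨add_mem h2 (Submodule.sum_mem _ fun i hi => (h4 i hi).1), ?_⟩
  have h5 : w.length - 1 = n := by omega
  rw [map_add, h3, map_sum, nrm_apply, obs_dec _ _ hw, map_sum, h5]
  congr 1
  refine Finset.sum_congr rfl fun i hi => ?_
  rw [(h4 i hi).2, cflT_tmul]

end Pres

end KPub
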