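import Mathlib
import Pool.Agent.H94.PB.OpsB

/-!
# Bridge, the periodic complex: `Per`, `Cyc`, `Bdr` and `CycMod.CP`, `Z`, `B`

`fth P c p = th (c p)`.  `ext F` is linear (a `Finsupp.sum`), so by `Submodule.span_induction`
over `HomS` the statements of `Ops` extend from words to `HomS`.
* `lift_CP`: an element of `wgr m` is the image of an element of `Ch m` (span of `HomW`, the
  witness `HomW.nil ha` lifts to `[(i, j a)]`, `HomW.snoc` to `w ++ [(i, j r)]`); choose for every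
  column `p` a preimage, `0` for `0`.
* `Cyc`, `Bdr`: `th` is injective on `HomS` modulo `Rel` (`mem_Rel`, `th_Rel`).
* `exists_q`: `LinearMap.exists_extend` from the span of the cycles.
-/

set_option autoImplicit false

open scoped TensorProduct

noncomputable section

namespace KPub

open NC NC.Wd

variable {k : Type} [Field k] {U : Type} [AddCommGroup U] [Module k U] {A : ZDGA k}
  {mul : U → U → U} {d : ℤ → U → U} {g : ℤ → Set U}

theorem Ch_le (m : ℤ) : Ch k U g m ≤ HomS k U g := by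
  refine Submodule.span_mono ?_
  rintro t ⟨w, hw, hg, -, ht⟩
  exact ⟨w, hw, hg, ht⟩

/-- the linear form of `ext` -/
private def extL (F : List (ℤ × U) → MonoidAlgebra k (List (ℤ × U))) :
    MonoidAlgebra k (List (ℤ × U)) →ₗ[k] MonoidAlgebra k (List (ℤ × U)) :=
  Finsupp.linearCombination k F ∘ₗ (MonoidAlgebra.coeffLinearEquiv k).toLinearMap

private theorem ext_eq (F : List (ℤ × U) → MonoidAlgebra k (List (ℤ × U)))
    (x : MonoidAlgebra k (List (ℤ × U))) : ext k U F x = extL F x := rfl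

private theorem ext_single (F : List (ℤ × U) → MonoidAlgebra k (List (ℤ × U)))
    (w : List (ℤ × U)) : ext k U F (MonoidAlgebra.single w 1) = F w := by
  have : ext k U F (MonoidAlgebra.single w 1) = (Finsupp.single w (1 : k)).sum
      (fun w a => a • F w) := rfl
  rw [this, Finsupp.sum_single_index (by rw [zero_smul]), one_smul]

private theorem ext_hom {V : Type} [AddCommGroup V] [Module k V] (ρ : U →ₗ[k] V)
    {g : ℤ → Set U} (F : List (ℤ × U) → MonoidAlgebra k (List (ℤ × U)))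
    (φ : Wd k V V →ₗ[k] Wd k V V)
    (h : ∀ w : List (ℤ × U), w ≠ [] → (∀ x ∈ w, x.2 ∈ g x.1) →
      F w ∈ HomS k U g ∧ th ρ (F w) = φ (thw ρ w))
    {t : MonoidAlgebra k (List (ℤ × U))} (ht : t ∈ HomS k U g) :
    ext k U F t ∈ HomS k U g ∧ th ρ (ext k U F t) = φ (th ρ t) := by
  unfold HomS at ht
  induction ht using Submodule.span_induction with
  | mem x hx =>
    obtain ⟨w, hw, hg, rfl⟩ := hx
    rw [ext_single, th_single, one_smul]
    exact h w hw hg
  | zero =>
    rw [ext_eq, map_zero, map_zero, map_zero]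
    exact ⟨Submodule.zero_mem _, rfl⟩
  | add x y _ _ hx hy =>
    rw [ext_eq] at hx hy ⊢
    rw [map_add, map_add, map_add, map_add, hx.2, hy.2]
    exact ⟨Submodule.add_mem _ hx.1 hy.1, rfl⟩
  | smul c x _ hx =>
    rw [ext_eq] at hx ⊢
    rw [map_smul, map_smul, map_smul, map_smul, hx.2]
    exact ⟨Submodule.smul_mem _ _ hx.1, rfl⟩

namespace Pres

variable (P : Pres A mul d g)

include P

/-- the image of a family of chains -/
def fth (c : ℤ → MonoidAlgebra k (List (ℤ × U))) : ℤ → A.cyc.V := fun p => th P.ρ (c p)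

theorem Per_hom {m : ℤ} {c : ℤ → MonoidAlgebra k (List (ℤ × U))} (hc : c ∈ Per k U g m) (p : ℤ) :
    c p ∈ HomS k U g := Ch_le _ (hc.1 p)

private theorem thw_wgr (w : List (ℤ × U)) : w ≠ [] → (∀ x ∈ w, x.2 ∈ g x.1) →
    thw P.ρ w ∈ wgr A.gr A.gr ((w.length : ℤ) - 1 - (w.map Prod.fst).sum) := by
  induction w using List.reverseRecOn with
  | nil => intro h; exact absurd rfl h
  | append_singleton w x ih =>
    intro _ hg
    have hx : P.ρ x.2 ∈ A.gr x.1 := P.ρ_gr (hg x (by simp))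
    by_cases hw : w = []
    · subst hw
      have h1 := nil_mem_wgr A.gr A.gr hx
      have e : (([] ++ [x] : List (ℤ × U)).length : ℤ) - 1 -
          (([] ++ [x] : List (ℤ × U)).map Prod.fst).sum = - x.1 := by simp
      rw [e]
      exact h1
    · rw [thw_append P.ρ hw x]
      have h1 := snoc_mem_wgr A.gr A.gr (ih hw (fun y hy => hg y (by simp [hy]))) hx
      have e : ((w ++ [x]).length : ℤ) - 1 - ((w ++ [x]).map Prod.fst).sum =
          (w.length : ℤ) - 1 - (w.map Prod.fst).sum + 1 - x.1 := by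
        simp only [List.length_append, List.map_append, List.sum_append, List.length_singleton,
          List.map_cons, List.map_nil, List.sum_singleton]
        push_cast
        ring
      rw [e]
      exact h1

private theorem th_wgr {m : ℤ} {t : MonoidAlgebra k (List (ℤ × U))} (ht : t ∈ Ch k U g m) :
    th P.ρ t ∈ wgr A.gr A.gr m := by
  unfold Ch at ht
  induction ht using Submodule.span_induction with
  | mem x hx =>
    obtain ⟨w, hw, hg, hm, rfl⟩ := hx
    rw [th_single, one_smul, ← hm]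
    exact P.thw_wgr w hw hg
  | zero =>
    rw [map_zero]
    exact Submodule.zero_mem _
  | add x y _ _ hx hy =>
    rw [map_add]
    exact Submodule.add_mem _ hx hy
  | smul c x _ hx =>
    rw [map_smul]
    exact Submodule.smul_mem _ _ hx

private theorem lift_HomW {m : ℤ} {v : Wd k A.V A.V} (hv : HomW A.gr A.gr m v) :
    ∃ w : List (ℤ × U), w ≠ [] ∧ (∀ x ∈ w, x.2 ∈ g x.1) ∧
      (w.length : ℤ) - 1 - (w.map Prod.fst).sum = m ∧ thw P.ρ w = v := by
  induction hv with
  | @nil i a ha =>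
    refine ⟨[(i, P.j a)], by simp, ?_, by simp, ?_⟩
    · intro x hx
      rw [List.mem_singleton] at hx
      subst hx
      exact (P.gr i _).2 ⟨a, ha, rfl⟩
    · rw [thw_one, P.ρj]
  | @snoc m j w r hw hr ih =>
    obtain ⟨l, hl, hg, hm, hth⟩ := ih
    refine ⟨l ++ [(j, P.j r)], by simp, ?_, ?_, ?_⟩
    · intro x hx
      rw [List.mem_append, List.mem_singleton] at hx
      rcases hx with hx | hx
      · exact hg x hx
      · subst hx
        exact (P.gr j _).2 ⟨r, hr, rfl⟩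
    · simp only [List.length_append, List.map_append, List.sum_append, List.length_singleton,
        List.map_cons, List.map_nil, List.sum_singleton]
      push_cast
      rw [← hm]
      ring
    · rw [thw_append P.ρ hl, hth, P.ρj]

private theorem lift_wgr {m : ℤ} {v : Wd k A.V A.V} (hv : v ∈ wgr A.gr A.gr m) :
    ∃ t ∈ Ch k U g m, th P.ρ t = v := by
  unfold wgr at hv
  induction hv using Submodule.span_induction with
  | mem x hx =>
    obtain ⟨w, hw, hg, hm, hth⟩ := P.lift_HomW hx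
    refine ⟨MonoidAlgebra.single w 1, Submodule.subset_span ⟨w, hw, hg, hm, rfl⟩, ?_⟩
    rw [th_single, one_smul, hth]
  | zero => exact ⟨0, Submodule.zero_mem _, map_zero _⟩
  | add x y _ _ hx hy =>
    obtain ⟨s, hs, rfl⟩ := hx
    obtain ⟨t, ht, rfl⟩ := hy
    exact ⟨s + t, Submodule.add_mem _ hs ht, map_add _ _ _⟩
  | smul c x _ hx =>
    obtain ⟨s, hs, rfl⟩ := hx
    exact ⟨c • s, Submodule.smul_mem _ _ hs, map_smul _ _ _⟩

theorem fth_CP {m : ℤ} {c : ℤ → MonoidAlgebra k (List (ℤ × U))} (hc : c ∈ Per k U g m) :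
    P.fth c ∈ A.cyc.CP Set.univ m := by
  obtain ⟨h1, q, hq⟩ := hc
  refine ⟨fun p => P.th_wgr (h1 p), fun p hp => absurd (Set.mem_univ p) hp, q, fun p hp => ?_⟩
  show th P.ρ (c p) = 0
  rw [hq p hp, map_zero]

theorem lift_CP {m : ℤ} {z : ℤ → A.cyc.V} (hz : z ∈ A.cyc.CP Set.univ m) :
    ∃ c ∈ Per k U g m, P.fth c = z := by
  classical
  obtain ⟨h1, -, q, hq⟩ := hz
  have h2 : ∀ p, ∃ t ∈ Ch k U g (m - p), th P.ρ t = z p := fun p => P.lift_wgr (h1 p)
  choose t ht1 ht2 using h2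
  refine ⟨fun p => if p ≤ q then t p else 0, ⟨fun p => ?_, q, fun p hp => ?_⟩, ?_⟩
  · by_cases h : p ≤ q
    · simp only [h, if_true]
      exact ht1 p
    · simp only [h, if_false]
      exact Submodule.zero_mem _
  · exact if_neg (not_le.2 hp)
  · funext p
    show th P.ρ (if p ≤ q then t p else 0) = z p
    by_cases h : p ≤ q
    · rw [if_pos h]
      exact ht2 p
    · rw [if_neg h, map_zero]
      exact (hq p (not_le.1 h)).symm

theorem dPer_hom {c : ℤ → MonoidAlgebra k (List (ℤ × U))} (hc : ∀ p, c p ∈ HomS k U g) (p : ℤ) :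
    dPer k U mul d c p ∈ HomS k U g := by
  unfold dPer
  split_ifs
  · exact Submodule.add_mem _
      (ext_hom P.ρ _ (bb A.toDGA) (fun w hw h => P.th_opB hw h) (hc p)).1
      (ext_hom P.ρ _ (LinearMap.id - rot A.toSD) (fun w hw h => P.th_opT hw h) (hc (p + 1))).1
  · exact Submodule.sub_mem _
      (ext_hom P.ρ _ (nrm A.toSD) (fun w hw h => P.th_opN hw h) (hc (p + 1))).1
      (ext_hom P.ρ _ (bp A.toDGA) (fun w hw h => P.th_opB' hw h) (hc p)).1

theorem fth_dPer {c : ℤ → MonoidAlgebra k (List (ℤ × U))} (hc : ∀ p, c p ∈ HomS k U g) :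
    P.fth (dPer k U mul d c) = A.cyc.wD Set.univ (P.fth c) := by
  funext p
  rw [A.cyc.wD_mem _ (Set.mem_univ p)]
  show th P.ρ (dPer k U mul d c p) = _
  unfold dPer CycMod.col CycMod.hor
  by_cases h : Even p
  · have h1 : ¬ Even (p + 1) := by
      rw [Int.not_even_iff_odd]
      exact h.add_one
    rw [if_pos h, if_pos h, if_neg h1, map_add,
      (ext_hom P.ρ _ (bb A.toDGA) (fun w hw h => P.th_opB hw h) (hc p)).2,
      (ext_hom P.ρ _ (LinearMap.id - rot A.toSD) (fun w hw h => P.th_opT hw h) (hc (p + 1))).2]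
    rfl
  · have h1 : Even (p + 1) := by
      rw [Int.not_even_iff_odd] at h
      exact h.add_one
    rw [if_neg h, if_neg h, if_pos h1, map_sub,
      (ext_hom P.ρ _ (nrm A.toSD) (fun w hw h => P.th_opN hw h) (hc (p + 1))).2,
      (ext_hom P.ρ _ (bp A.toDGA) (fun w hw h => P.th_opB' hw h) (hc p)).2]
    rw [sub_eq_neg_add]
    rfl

theorem mem_Cyc {m : ℤ} {c : ℤ → MonoidAlgebra k (List (ℤ × U))} :
    c ∈ Cyc k U mul d g m ↔ c ∈ Per k U g m ∧ P.fth c ∈ A.cyc.Z Set.univ m := by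
  constructor
  · rintro ⟨h1, h2⟩
    refine ⟨h1, ?_, P.fth_CP h1⟩
    show A.cyc.wD Set.univ (P.fth c) = 0
    rw [← P.fth_dPer (P.Per_hom h1)]
    funext p
    exact th_Rel P.ρ (h2 p)
  · rintro ⟨h1, h2, -⟩
    refine ⟨h1, fun p => P.mem_Rel (P.dPer_hom (P.Per_hom h1) p) ?_⟩
    have h3 : A.cyc.wD Set.univ (P.fth c) = 0 := h2
    rw [← P.fth_dPer (P.Per_hom h1)] at h3
    exact congrFun h3 p

theorem mem_Bdr {m : ℤ} {c : ℤ → MonoidAlgebra k (List (ℤ × U))} (hc : ∀ p, c p ∈ HomS k U g) :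
    c ∈ Bdr k U mul d g m ↔ P.fth c ∈ A.cyc.B Set.univ m := by
  constructor
  · rintro ⟨e, he, h⟩
    refine ⟨P.fth e, P.fth_CP he, ?_⟩
    rw [← P.fth_dPer (P.Per_hom he)]
    funext p
    have h1 := th_Rel P.ρ (h p)
    rw [map_sub, sub_eq_zero] at h1
    exact h1.symm
  · rintro ⟨y, hy, h⟩
    obtain ⟨e, he, rfl⟩ := P.lift_CP hy
    refine ⟨e, he, fun p => P.mem_Rel
      (Submodule.sub_mem _ (hc p) (P.dPer_hom (P.Per_hom he) p)) ?_⟩
    rw [← P.fth_dPer (P.Per_hom he)] at h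
    have h1 : th P.ρ (dPer k U mul d e p) = th P.ρ (c p) := congrFun h p
    rw [map_sub, h1, sub_self]

theorem exists_q (m : ℤ) : ∃ q : (ℤ → MonoidAlgebra k (List (ℤ × U))) →ₗ[k] A.HP m,
    ∀ c (hc : c ∈ Cyc k U mul d g m), q c = A.cyc.cls (P.fth c) (P.mem_Cyc.1 hc).2 := by
  let φ : (ℤ → MonoidAlgebra k (List (ℤ × U))) →ₗ[k] (ℤ → A.cyc.V) :=
    { toFun := P.fth
      map_add' := fun a b => funext fun p => map_add (th P.ρ) (a p) (b p)
      map_smul' := fun r a => funext fun p => map_smul (th P.ρ) r (a p) }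
  obtain ⟨q, hq⟩ := LinearMap.exists_extend
    (A.cyc.toH Set.univ m ∘ₗ φ.restrict (p := (A.cyc.Z Set.univ m).comap φ)
      (q := A.cyc.Z Set.univ m) (fun x hx => hx))
  refine ⟨q, fun c hc => ?_⟩
  have h1 : c ∈ (A.cyc.Z Set.univ m).comap φ := (P.mem_Cyc.1 hc).2
  exact LinearMap.congr_fun hq ⟨c, h1⟩

/-- every class is represented by a cycle -/
theorem exists_cyc {m : ℤ} (x : A.HP m) : ∃ c, ∃ hc : c ∈ Cyc k U mul d g m,
    A.cyc.cls (P.fth c) (P.mem_Cyc.1 hc).2 = x := by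
  obtain ⟨c', hc', rfl⟩ := A.cyc.cls_surj x
  obtain ⟨c, hc, rfl⟩ := P.lift_CP hc'.2
  exact ⟨c, P.mem_Cyc.2 ⟨hc, hc'⟩, rfl⟩

theorem cls_zero {m : ℤ} {c : ℤ → MonoidAlgebra k (List (ℤ × U))} (hc : c ∈ Cyc k U mul d g m) :
    A.cyc.cls (P.fth c) (P.mem_Cyc.1 hc).2 = 0 ↔ c ∈ Bdr k U mul d g m := by
  rw [A.cyc.cls_eq_zero, P.mem_Bdr (P.Per_hom hc.1)]
  rfl

end Pres

end KPub
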