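import Mathlib
import Pool.Agent.H94.PB.Dga

/-!
# Bridge, bimodules: from the public predicates to `ZBim`, `ZRMod`

The parity projection `P` of a graded vector space `(M, gM)` is `ofInt h (fun i => if Even i then
LinearMap.id else 0)` (`ofInt_apply`: its values on homogeneous elements); identities between
linear maps are checked on homogeneous elements with `eq_int` (GEnd.lean).
-/

set_option autoImplicit false

open scoped TensorProduct

noncomputable section

namespace KPub

open NC NC.Wd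
open NC.CycMod (eq_int)

variable {k : Type} [Field k]

theorem par_gr {M : Type} [AddCommGroup M] [Module k M] {gM : ℤ → Submodule k M}
    (h : DirectSum.IsInternal gM) (i : ℤ) (v : M) (hv : v ∈ gM i) :
    ofInt h (fun i => if Even i then LinearMap.id else 0) v = if Even i then v else 0 := by
  rw [ofInt_apply h _ hv]
  split_ifs <;> rfl

/-- the complex -/
def toZD {M : Type} [AddCommGroup M] [Module k M] {gM : ℤ → Submodule k M} {dM : M →ₗ[k] M}
    (h : IsCx k M gM dM) : ZD k where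
  V := M
  D := dM
  P := ofInt h.1 (fun i => if Even i then LinearMap.id else 0)
  DD := h.2.2
  PP := by
    refine eq_int h.1 (ofInt h.1 (fun i => if Even i then LinearMap.id else 0) ∘ₗ
      ofInt h.1 (fun i => if Even i then LinearMap.id else 0)) _ (fun i v hv => ?_)
    rw [LinearMap.comp_apply, par_gr h.1 i v hv]
    split_ifs with hi
    · rw [par_gr h.1 i v hv, if_pos hi]
    · rw [map_zero]
  DP := by
    refine eq_int h.1 (dM ∘ₗ ofInt h.1 (fun i => if Even i then LinearMap.id else 0))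
      (dM - ofInt h.1 (fun i => if Even i then LinearMap.id else 0) ∘ₗ dM) (fun i v hv => ?_)
    rw [LinearMap.comp_apply, LinearMap.sub_apply, LinearMap.comp_apply, par_gr h.1 i v hv,
      par_gr h.1 (i + 1) (dM v) (h.2.1 i v hv)]
    by_cases hi : Even i
    · rw [if_pos hi, if_neg (by rw [Int.even_add_one]; exact fun hn => hn hi), sub_zero]
    · rw [if_neg hi, if_pos (Int.even_add_one.2 hi), sub_self, map_zero]
  gr := gM
  internal := h.1
  P_gr := par_gr h.1
  D_gr := h.2.1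

variable {A : ZDGA k}

/-- the Leibniz rule for a left action from homogeneous elements -/
theorem leib_l {M : Type} [AddCommGroup M] [Module k M] {gM : ℤ → Submodule k M}
    (hM : DirectSum.IsInternal gM) {dM : M →ₗ[k] M} (l : A.V →ₗ[k] M →ₗ[k] M)
    (h : ∀ i j, ∀ a ∈ A.gr i, ∀ m ∈ gM j, dM (l a m) = l (A.D a) m + (-1 : k) ^ i • l a (dM m))
    (a : A.V) (m : M) : dM (l a m) = l (A.D a) m + l (A.E a) (dM m) := by
  refine eq_int A.internal (dM ∘ₗ l.flip m) (l.flip m ∘ₗ A.D + l.flip (dM m) ∘ₗ A.E)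
    (fun i a ha => ?_) a
  refine eq_int hM (dM ∘ₗ l a) (l (A.D a) + l (A.E a) ∘ₗ dM) (fun j m hm => ?_) m
  have h1 : A.E a = (-1 : k) ^ i • a := E_zpow A.toZD ha
  simp only [LinearMap.comp_apply, LinearMap.add_apply, h1, map_smul, LinearMap.smul_apply]
  exact h i j a ha m hm

/-- the Leibniz rule for a right action from homogeneous elements -/
theorem leib_r (X : ZD k) (r : X.V →ₗ[k] A.V →ₗ[k] X.V)
    (h : ∀ i j, ∀ m ∈ X.gr i, ∀ a ∈ A.gr j, X.D (r m a) = r (X.D m) a + (-1 : k) ^ i • r m (A.D a))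
    (m : X.V) (a : A.V) : X.D (r m a) = r (X.D m) a + r (X.E m) (A.D a) := by
  refine eq_int A.internal (X.D ∘ₗ r m) (r (X.D m) + r (X.E m) ∘ₗ A.D)
    (fun j a ha => ?_) a
  refine eq_int X.internal (X.D ∘ₗ r.flip a) (r.flip a ∘ₗ X.D + r.flip (A.D a) ∘ₗ X.E)
    (fun i m hm => ?_) m
  have h1 : X.E m = (-1 : k) ^ i • m := E_zpow X hm
  simp only [LinearMap.comp_apply, LinearMap.add_apply, LinearMap.flip_apply, h1, map_smul,
    LinearMap.smul_apply]
  exact h i j m hm a ha

/-- the bimodule -/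
def toZBim {M : Type} [AddCommGroup M] [Module k M] {gM : ℤ → Submodule k M} {dM : M →ₗ[k] M}
    {l : A.V → M → M} {r : M → A.V → M}
    (h : IsBim k A.V A.gr A.D A.V A.gr A.D M gM dM l r) : ZBim A where
  toZD := toZD h.1
  l := LinearMap.mk₂ k l (fun a b m => (h.2.2.1 m).map_add a b) (fun c a m => (h.2.2.1 m).map_smul c a)
    (fun a m n => (h.2.1 a).map_add m n) (fun c a m => (h.2.1 a).map_smul c m)
  r := LinearMap.mk₂ k r (fun m n a => (h.2.2.2.2.1 a).map_add m n)
    (fun c m a => (h.2.2.2.2.1 a).map_smul c m)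
    (fun m a b => (h.2.2.2.1 m).map_add a b) (fun c m a => (h.2.2.2.1 m).map_smul c a)
  l_one := h.2.2.2.2.2.1
  r_one := h.2.2.2.2.2.2.1
  l_mul := h.2.2.2.2.2.2.2.1
  r_mul := h.2.2.2.2.2.2.2.2.1
  l_r := h.2.2.2.2.2.2.2.2.2.1
  D_l := leib_l h.1.1 _ (fun i j a ha m hm => (h.2.2.2.2.2.2.2.2.2.2.1 i j a ha m hm).2)
  D_r := leib_r (toZD h.1) _ (fun i j m hm a ha => (h.2.2.2.2.2.2.2.2.2.2.2 i j m hm a ha).2)
  l_gr := fun i j a ha m hm => (h.2.2.2.2.2.2.2.2.2.2.1 i j a ha m hm).1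
  r_gr := fun i j m hm a ha => (h.2.2.2.2.2.2.2.2.2.2.2 i j m hm a ha).1

/-- the right module -/
def toZRMod {M : Type} [AddCommGroup M] [Module k M] {gM : ℤ → Submodule k M} {dM : M →ₗ[k] M}
    {l : k → M → M} {r : M → A.V → M}
    (h : IsBim k k (fun i => if i = 0 then ⊤ else ⊥) 0 A.V A.gr A.D M gM dM l r) : ZRMod A where
  toZD := toZD h.1
  r := LinearMap.mk₂ k r (fun m n a => (h.2.2.2.2.1 a).map_add m n)
    (fun c m a => (h.2.2.2.2.1 a).map_smul c m)
    (fun m a b => (h.2.2.2.1 m).map_add a b) (fun c m a => (h.2.2.2.1 m).map_smul c a)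
  r_one := h.2.2.2.2.2.2.1
  r_mul := h.2.2.2.2.2.2.2.2.1
  D_r := leib_r (toZD h.1) _ (fun i j m hm a ha => (h.2.2.2.2.2.2.2.2.2.2.2 i j m hm a ha).2)
  r_gr := fun i j m hm a ha => (h.2.2.2.2.2.2.2.2.2.2.2 i j m hm a ha).1

end KPub
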