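import Mathlib
import Pool.Agent.H94.PB.Bim

/-!
# Bridge, bimodules: semi-free bimodules, perfect right modules

`comb x` is the given isomorphism `e` (compare on `single i (a ⊗ b)`); for right modules use
`k ⊗ A = A` and `l c v = c • v` (which follows from the axioms of `IsBim` for `L = k`:
`l c v = c • l 1 v`).
-/

set_option autoImplicit false

open scoped TensorProduct

noncomputable section

namespace KPub

open NC NC.Wd

variable {k : Type} [Field k] {A : ZDGA k}

theorem semiFree_of {M : Type} [AddCommGroup M] [Module k M] {gM : ℤ → Submodule k M}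
    {dM : M →ₗ[k] M} {l : A.V → M → M} {r : M → A.V → M}
    (h : IsBim k A.V A.gr A.D A.V A.gr A.D M gM dM l r) {I : Type}
    (hI : IsSemiFree k A.V A.V M gM dM l r I) : (toZBim h).IsSemiFree I := by
  obtain ⟨x, deg, rk, e, he, hx⟩ := hI
  refine ⟨x, deg, rk, fun i => (hx i).1, ?_, fun i => (hx i).2⟩
  have key : (toZBim h).comb x = e.toLinearMap := by
    refine Finsupp.lhom_ext' fun i => TensorProduct.ext' fun a b => ?_
    have e1 : ((toZBim h).comb x) (Finsupp.single i (a ⊗ₜ b)) = l a (r (x i) b) := by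
      unfold ZBim.comb
      rw [Finsupp.lsum_single]
      rfl
    exact e1.trans (he i a b).symm
  rw [key]
  exact e.bijective

private theorem l_smul {M : Type} [AddCommGroup M] [Module k M] {gM : ℤ → Submodule k M}
    {dM : M →ₗ[k] M} {l : k → M → M} {r : M → A.V → M}
    (h : IsBim k k (fun i => if i = 0 then ⊤ else ⊥) 0 A.V A.gr A.D M gM dM l r) (c : k) (v : M) :
    l c v = c • v := by
  have h1 := (h.2.2.1 v).map_smul c 1
  simp only [smul_eq_mul, mul_one] at h1
  rw [h1, h.2.2.2.2.2.1]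

theorem rsemiFree_of {M : Type} [AddCommGroup M] [Module k M] {gM : ℤ → Submodule k M}
    {dM : M →ₗ[k] M} {l : k → M → M} {r : M → A.V → M}
    (h : IsBim k k (fun i => if i = 0 then ⊤ else ⊥) 0 A.V A.gr A.D M gM dM l r) {I : Type}
    (hI : IsSemiFree k k A.V M gM dM l r I) : (toZRMod h).IsSemiFree I := by
  obtain ⟨x, deg, rk, e, he, hx⟩ := hI
  refine ⟨x, deg, rk, fun i => (hx i).1, ?_, fun i => ?_⟩
  · have key : (toZRMod h).comb x =
        ((Finsupp.mapRange.linearEquiv (TensorProduct.lid k A.V).symm).trans e).toLinearMap := by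
      refine Finsupp.lhom_ext fun i b => ?_
      have e1 : ((toZRMod h).comb x) (Finsupp.single i b) = r (x i) b := by
        unfold ZRMod.comb
        rw [Finsupp.lsum_single]
        rfl
      have e2 : ((Finsupp.mapRange.linearEquiv (TensorProduct.lid k A.V).symm).trans e)
          (Finsupp.single i b) = e (Finsupp.single i ((1 : k) ⊗ₜ b)) := by
        rw [LinearEquiv.trans_apply, Finsupp.mapRange.linearEquiv_apply,
          Finsupp.mapRange_single]
        rfl
      have e3 : e (Finsupp.single i ((1 : k) ⊗ₜ b)) = r (x i) b := by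
        rw [he, l_smul h, one_smul]
      exact e1.trans (e2.trans e3).symm
    rw [key]
    exact LinearEquiv.bijective _
  · have h1 := (hx i).2
    have h2 : {v | ∃ j a b, rk j < rk i ∧ v = l a (r (x j) b)} ⊆
        (Submodule.span k {m | ∃ j b, rk j < rk i ∧ m = r (x j) b} : Set M) := by
      rintro v ⟨j, a, b, hj, rfl⟩
      rw [l_smul h]
      exact Submodule.smul_mem _ _ (Submodule.subset_span ⟨j, b, hj, rfl⟩)
    exact (Submodule.span_le.mpr h2) h1

/-- perfect right modules -/
theorem perf_of {M : Type} [AddCommGroup M] [Module k M] {gM : ℤ → Submodule k M}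
    {dM : M →ₗ[k] M} {l : A.V → M → M} {r : M → A.V → M}
    (h : IsBim k A.V A.gr A.D A.V A.gr A.D M gM dM l r)
    (hp : IsPerf k k (fun i => if i = 0 then ⊤ else ⊥) 0 A.V A.gr A.D M gM dM
      (fun c m => c • m) r) :
    ∃ (X F : ZRMod A) (n : ℕ) (φ : ZRMod.Hom X (toZBim h).right),
      ((∀ m, X.D m = 0 → (∃ n, (toZBim h).D n = φ.f m) → ∃ m', X.D m' = m) ∧
        ∀ n, (toZBim h).D n = 0 → ∃ m n', X.D m = 0 ∧ φ.f m = n + (toZBim h).D n') ∧
      F.IsSemiFree (Fin n) ∧ ZRMod.IsHRetract X F := by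
  obtain ⟨X, _, _, gX, dX, lX, rX, Y, _, _, gY, dY, lY, rY, n, f, hX, hY, hf, hq, hs, s, t, hh,
    h1, h2, h3, h4, h5, h6⟩ := hp
  refine ⟨toZRMod hX, toZRMod hY, n, ⟨f, hf.2.1, hf.2.2.1, hf.2.2.2⟩, hq, rsemiFree_of hY hs,
    ⟨s, h1.2.1, h1.2.2.1, h1.2.2.2⟩, ⟨t, h2.2.1, h2.2.2.1, h2.2.2.2⟩, hh, h3, h5, h6⟩

end KPub
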