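import Mathlib
import Pool.Agent.H94.PB.Bim

/-!
# Bridge, endomorphisms: the public endomorphism dg algebra of `A ⊕ M` and `ZBim.EM`

`EndA.V` is a submodule of linear maps; `j` is the coercion to functions, `ρ` a retraction of it
(`LinearMap.exists_leftInverse_of_injective`).  `gE` is `homGr` (underlying functions), `dE` of an
endomorphism of degree `i` is `evD`: `E f E = (-1)^i f`.
-/

set_option autoImplicit false

open scoped TensorProduct

noncomputable section

namespace KPub

open NC NC.Wd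

variable {k : Type} [Field k] {A : ZDGA k} {M : Type} [AddCommGroup M] [Module k M]
  {gM : ℤ → Submodule k M} {dM : M →ₗ[k] M} {l : A.V → M → M} {r : M → A.V → M}

private theorem End_sign (i j : ℤ) : (-1 : k) ^ j * (-1 : k) ^ (i + j) = (-1 : k) ^ i := by
  have h1 : (-1 : k) ≠ 0 := neg_ne_zero.2 one_ne_zero
  rw [zpow_add₀ h1, mul_comm, mul_assoc, ← zpow_add₀ h1, ← two_mul, zpow_mul]
  simp

private theorem End_E (N : ZRMod A) {i : ℤ} {f : N.V →ₗ[k] N.V} (hf : f ∈ N.homGr i) (v : N.V) :
    N.E (f (N.E v)) = (-1 : k) ^ i • f v := by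
  refine CycMod.eq_int N.internal (N.E ∘ₗ f ∘ₗ N.E) ((-1 : k) ^ i • f) (fun j v hv => ?_) v
  change N.E (f (N.E v)) = (-1 : k) ^ i • f v
  rw [E_zpow N.toZD hv, map_smul, map_smul, E_zpow N.toZD (hf.2 j v hv), smul_smul, End_sign]

private def End_j (N : ZRMod A) : N.EndA.V →ₗ[k] (N.V → N.V) where
  toFun f := fun x => f.1 x
  map_add' _ _ := rfl
  map_smul' _ _ := rfl

private theorem End_j_inj (N : ZRMod A) : Function.Injective (End_j N) := by
  intro f g hfg
  exact Subtype.ext (LinearMap.ext (fun x => congrFun hfg x))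

private theorem End_r (h : IsBim k A.V A.gr A.D A.V A.gr A.D M gM dM l r) (m : A.V × M)
    (a : A.V) : (A.diag.right.sum (toZBim h).right).r m a = ((m.1 * a, r m.2 a) : A.V × M) := by
  refine Prod.ext ?_ ?_
  · change A.mul m.1 a + 0 = _
    rw [add_zero]
    rfl
  · change 0 + r m.2 a = _
    rw [zero_add]

private theorem End_D (N : ZRMod A) {i : ℤ} (f : N.EndA.V) (hf : f ∈ N.EndA.gr i) (v : N.V) :
    (N.EndA.D f).1 v = N.D (f.1 v) - (-1 : k) ^ i • f.1 (N.D v) := by
  change N.evD f.1 v = _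
  rw [ZRMod.evD_apply]
  exact congrArg (fun x => N.D (f.1 v) - x) (End_E N hf (N.D v))

/-- the presentation of the endomorphism algebra -/
theorem exists_presE (h : IsBim k A.V A.gr A.D A.V A.gr A.D M gM dM l r) :
    ∃ P : Pres (U := A.V × M → A.V × M) (toZBim h).EM (fun f h => f ∘ h) (dE k A.V A.D M dM)
        (gE k A.V A.gr M gM r),
      (∀ a x, P.j ((toZBim h).iM.f a) x = (a * x.1, 0)) ∧
      ∀ a x, P.j ((toZBim h).rhoM.f a) x = (0, l a x.2) := by
  obtain ⟨ρ, hρ⟩ := LinearMap.exists_leftInverse_of_injective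
    (End_j (A.diag.right.sum (toZBim h).right))
    (LinearMap.ker_eq_bot.2 (End_j_inj _))
  refine ⟨⟨End_j (A.diag.right.sum (toZBim h).right), ρ, fun a => LinearMap.congr_fun hρ a, ?_,
    fun a b => rfl, ?_⟩, fun a x => rfl, fun a x => rfl⟩
  · intro i u
    constructor
    · rintro ⟨h1, h2, h3⟩
      have h4 : h1.mk' u ∈ (A.diag.right.sum (toZBim h).right).homGr i := by
        refine ⟨fun m a => ?_, fun j m hm => h3 j m hm.1 hm.2⟩
        exact (congrArg u (End_r h m a)).trans ((h2 m a).trans (End_r h (u m) a).symm)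
      exact ⟨⟨h1.mk' u, (A.diag.right.sum (toZBim h).right).homGr_le i h4⟩, h4, rfl⟩
    · rintro ⟨f, hf, rfl⟩
      refine ⟨f.1.isLinear, fun m a => ?_, fun j m hm hm' => hf.2 j m ⟨hm, hm'⟩⟩
      exact (congrArg (fun x => f.1 x) (End_r h m a)).symm.trans
        ((hf.1 m a).trans (End_r h (f.1 m) a))
  · intro i f hf
    funext v
    have h1 := End_D (A.diag.right.sum (toZBim h).right) f hf v
    exact h1.symm

end KPub
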