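import Mathlib
import Pool.Agent.H94.PB.Dga
import Pool.Agent.H94.PB.Per

/-!
# Bridge, functoriality of `th`, models of `HP_m`

`th P'.ρ (mapDomain (List.map (Prod.map id u)) t) = wm f (th P.ρ t)` for `t ∈ HomS` if
`u (P.j a) = P'.j (f a)`.  A model `(H, q)`: on the span of the cycles `q` and the map `exists_q`
have the same kernel and are onto.
-/

set_option autoImplicit false

open scoped TensorProduct

noncomputable section

namespace KPub

open NC NC.Wd

variable {k : Type} [Field k]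

section

variable {U : Type} [AddCommGroup U] [Module k U] {U' : Type} [AddCommGroup U'] [Module k U']
  {A A' : ZDGA k} {mul : U → U → U} {d : ℤ → U → U} {g : ℤ → Set U}
  {mul' : U' → U' → U'} {d' : ℤ → U' → U'} {g' : ℤ → Set U'}

private theorem Ind_word (P : Pres A mul d g) (P' : Pres A' mul' d' g') (f : ZHom A A')
    (u : U → U') (hu : ∀ a, u (P.j a) = P'.j (f.f a)) (w : List (ℤ × U)) :
    w ≠ [] → (∀ x ∈ w, x.2 ∈ g x.1) →
      (∀ x ∈ w.map (Prod.map id u), x.2 ∈ g' x.1) ∧
        thw P'.ρ (w.map (Prod.map id u)) =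
          wm (A := A.toSD) (B := A'.toSD) f.f (thw P.ρ w) := by
  induction w using List.reverseRecOn with
  | nil => intro h; exact absurd rfl h
  | append_singleton w x ih =>
    intro _ hg
    have hx : x.2 ∈ g x.1 := hg x (by simp)
    have hux : u x.2 = P'.j (f.f (P.ρ x.2)) := by
      rw [← hu, P.jρ hx]
    have hux' : u x.2 ∈ g' x.1 :=
      (P'.gr _ _).2 ⟨_, f.gr _ _ (P.ρ_gr hx), hux.symm⟩
    have hr : P'.ρ (u x.2) = f.f (P.ρ x.2) := by rw [hux, P'.ρj]
    by_cases hw : w = []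
    · subst hw
      refine ⟨?_, ?_⟩
      · intro y hy
        rw [List.nil_append, List.map_singleton, List.mem_singleton] at hy
        subst hy
        exact hux'
      · rw [List.nil_append, List.map_singleton, thw_one, thw_one, wm_nil]
        exact congrArg nil hr
    · obtain ⟨h1, h2⟩ := ih hw (fun y hy => hg y (by simp [hy]))
      have hw' : w.map (Prod.map id u) ≠ [] := fun h => hw (List.map_eq_nil_iff.1 h)
      rw [List.map_append, List.map_singleton]
      refine ⟨?_, ?_⟩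
      · intro y hy
        rw [List.mem_append, List.mem_singleton] at hy
        rcases hy with hy | hy
        · exact h1 y hy
        · subst hy
          exact hux'
      · rw [thw_append P'.ρ hw', thw_append P.ρ hw, wm_snoc, h2]
        exact congrArg _ hr

/-- functoriality of `th` -/
theorem th_map (P : Pres A mul d g) (P' : Pres A' mul' d' g') (f : ZHom A A') (u : U → U')
    (hu : ∀ a, u (P.j a) = P'.j (f.f a)) {t : MonoidAlgebra k (List (ℤ × U))}
    (ht : t ∈ HomS k U g) :
    t.mapDomain (List.map (Prod.map id u)) ∈ HomS k U' g' ∧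
      th P'.ρ (t.mapDomain (List.map (Prod.map id u))) = wm f.f (th P.ρ t) := by
  unfold HomS at ht
  induction ht using Submodule.span_induction with
  | mem x hx =>
    obtain ⟨w, hw, hg, rfl⟩ := hx
    obtain ⟨h1, h2⟩ := Ind_word P P' f u hu w hw hg
    rw [MonoidAlgebra.mapDomain_single, th_single, th_single, one_smul, one_smul, h2]
    refine ⟨Submodule.subset_span ⟨_, ?_, h1, rfl⟩, rfl⟩
    exact fun h => hw (List.map_eq_nil_iff.1 h)
  | zero =>
    rw [MonoidAlgebra.mapDomain_zero, map_zero, map_zero, map_zero]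
    exact ⟨Submodule.zero_mem _, rfl⟩
  | add x y _ _ hx hy =>
    rw [MonoidAlgebra.mapDomain_add, map_add, map_add, map_add, hx.2, hy.2]
    exact ⟨Submodule.add_mem _ hx.1 hy.1, rfl⟩
  | smul c x _ hx =>
    rw [MonoidAlgebra.mapDomain_smul, map_smul, map_smul, map_smul, hx.2]
    exact ⟨Submodule.smul_mem _ _ hx.1, rfl⟩

end

variable {A : ZDGA k}

/-- the cycles form a submodule -/
private def Ind_S (A : ZDGA k) (m : ℤ) : Submodule k (ℤ → MonoidAlgebra k (List (ℤ × A.V))) where
  carrier := CycA k A.V A.gr A.D m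
  add_mem' := by
    intro a b ha hb
    obtain ⟨⟨h1, p, h2⟩, h3⟩ := (presA A).mem_Cyc.1 ha
    obtain ⟨⟨h1', p', h2'⟩, h3'⟩ := (presA A).mem_Cyc.1 hb
    refine (presA A).mem_Cyc.2 ⟨⟨fun i => Submodule.add_mem _ (h1 i) (h1' i), max p p',
      fun i hi => ?_⟩, ?_⟩
    · rw [Pi.add_apply, h2 i (lt_of_le_of_lt (le_max_left _ _) hi),
        h2' i (lt_of_le_of_lt (le_max_right _ _) hi), add_zero]
    · have e : (presA A).fth (a + b) = (presA A).fth a + (presA A).fth b :=
        funext fun i => map_add (th (presA A).ρ) (a i) (b i)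
      rw [e]
      exact Submodule.add_mem _ h3 h3'
  zero_mem' := by
    refine (presA A).mem_Cyc.2 ⟨⟨fun i => Submodule.zero_mem _, 0, fun i _ => rfl⟩, ?_⟩
    have e : (presA A).fth 0 = 0 := funext fun i => map_zero (th (presA A).ρ)
    rw [e]
    exact Submodule.zero_mem _
  smul_mem' := by
    intro r a ha
    obtain ⟨⟨h1, p, h2⟩, h3⟩ := (presA A).mem_Cyc.1 ha
    refine (presA A).mem_Cyc.2 ⟨⟨fun i => Submodule.smul_mem _ _ (h1 i), p,
      fun i hi => ?_⟩, ?_⟩
    · rw [Pi.smul_apply, h2 i hi, smul_zero]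
    · have e : (presA A).fth (r • a) = r • (presA A).fth a :=
        funext fun i => map_smul (th (presA A).ρ) r (a i)
      rw [e]
      exact Submodule.smul_mem _ _ h3

private theorem Ind_mem {m : ℤ} {c : ℤ → MonoidAlgebra k (List (ℤ × A.V))} :
    c ∈ Ind_S A m ↔ c ∈ CycA k A.V A.gr A.D m := Iff.rfl

/-- a model of `HP_m` is identified with `A.HP m` -/
theorem model {m : ℤ} {H : Type} [AddCommGroup H] [Module k H]
    {q : (ℤ → MonoidAlgebra k (List (ℤ × A.V))) →ₗ[k] H} (hq : IsHP k A.V A.gr A.D m H q) :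
    ∃ e : H ≃ₗ[k] A.HP m, ∀ c (hc : c ∈ CycA k A.V A.gr A.D m),
      e (q c) = A.cyc.cls ((presA A).fth c) ((presA A).mem_Cyc.1 hc).2 := by
  obtain ⟨q', hq'⟩ := (presA A).exists_q m
  let a : ↥(Ind_S A m) →ₗ[k] H := q ∘ₗ (Ind_S A m).subtype
  let b : ↥(Ind_S A m) →ₗ[k] A.HP m := q' ∘ₗ (Ind_S A m).subtype
  have ha : Function.Surjective a := by
    intro h
    obtain ⟨c, hc, rfl⟩ := hq.1 h
    exact ⟨⟨c, hc⟩, rfl⟩
  have hb : Function.Surjective b := by
    intro x
    obtain ⟨c, hc, rfl⟩ := (presA A).exists_cyc x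
    exact ⟨⟨c, hc⟩, hq' c hc⟩
  have hk : LinearMap.ker a = LinearMap.ker b := by
    ext ⟨c, hc⟩
    rw [LinearMap.mem_ker, LinearMap.mem_ker]
    change q c = 0 ↔ q' c = 0
    rw [hq.2 c hc, hq' c hc]
    exact ((presA A).cls_zero hc).symm
  refine ⟨(a.quotKerEquivOfSurjective ha).symm ≪≫ₗ Submodule.quotEquivOfEq _ _ hk ≪≫ₗ
    b.quotKerEquivOfSurjective hb, fun c hc => ?_⟩
  have h1 : (a.quotKerEquivOfSurjective ha).symm (q c) = Submodule.Quotient.mk ⟨c, hc⟩ := by
    rw [LinearEquiv.symm_apply_eq]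
    rfl
  rw [LinearEquiv.trans_apply, LinearEquiv.trans_apply, h1, Submodule.quotEquivOfEq_mk]
  exact hq' c hc

/-- there is a model -/
theorem exists_model (m : ℤ) : ∃ q : (ℤ → MonoidAlgebra k (List (ℤ × A.V))) →ₗ[k] A.HP m,
    IsHP k A.V A.gr A.D m (A.HP m) q := by
  obtain ⟨q', hq'⟩ := (presA A).exists_q m
  refine ⟨q', ?_, ?_⟩
  · intro x
    obtain ⟨c, hc, rfl⟩ := (presA A).exists_cyc x
    exact ⟨c, hc, hq' c hc⟩
  · intro c hc
    have h := hq' c hc
    rw [h]
    exact (presA A).cls_zero hc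

end KPub
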