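import Mathlib
import Pool.Agent.H94.PB.End
import Pool.Agent.H94.PB.Ind

/-!
# Bridge, induced maps

With `P := presA A`, `P'` from `exists_presE`: for cycles `x`, `y` the family
`u_* y - v_* x` is in `BdrE m` iff `wm iM (th y) - wm rhoM (th x)` is a boundary
(`th_map`, `mem_Bdr`), i.e. iff `HP (iM) [y] = HP (rhoM) [x]` in `(toZBim h).EM.HP m`
(`CycMod.cls_sub`, `cls_eq_zero`, the value of `CycMod.Hom.H` on classes).  Every element of
`H₀ × H₁` is `(q₀ x, q₁ x')` with cycles `x`, `x'`.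
-/

set_option autoImplicit false

open scoped TensorProduct

noncomputable section

namespace KPub

open NC NC.Wd

variable {k : Type} [Field k] {A : ZDGA k}

/-- the condition of `Induces` for one pair of cycles -/
theorem cond_iff {U' : Type} [AddCommGroup U'] [Module k U'] {A' : ZDGA k}
    {mul' : U' → U' → U'} {d' : ℤ → U' → U'} {g' : ℤ → Set U'} (P' : Pres A' mul' d' g')
    (f f' : ZHom A A') (u v : A.V → U') (hu : ∀ a, u a = P'.j (f.f a))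
    (hv : ∀ a, v a = P'.j (f'.f a)) {m : ℤ} {x y : ℤ → MonoidAlgebra k (List (ℤ × A.V))}
    (hx : x ∈ CycA k A.V A.gr A.D m) (hy : y ∈ CycA k A.V A.gr A.D m) :
    (fun p => (y p).mapDomain (List.map (Prod.map id u)) -
      (x p).mapDomain (List.map (Prod.map id v))) ∈ Bdr k U' mul' d' g' m ↔
      f.HP m (A.cyc.cls ((presA A).fth y) ((presA A).mem_Cyc.1 hy).2) =
        f'.HP m (A.cyc.cls ((presA A).fth x) ((presA A).mem_Cyc.1 hx).2) := by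
  have hY : ∀ p, y p ∈ HomS k A.V (fun i => (A.gr i : Set A.V)) :=
    fun p => (presA A).Per_hom ((presA A).mem_Cyc.1 hy).1 p
  have hX : ∀ p, x p ∈ HomS k A.V (fun i => (A.gr i : Set A.V)) :=
    fun p => (presA A).Per_hom ((presA A).mem_Cyc.1 hx).1 p
  have h1 := fun p => th_map (presA A) P' f u hu (hY p)
  have h2 := fun p => th_map (presA A) P' f' v hv (hX p)
  rw [P'.mem_Bdr (fun p => Submodule.sub_mem _ (h1 p).1 (h2 p).1)]
  have h3 : P'.fth (fun p => (y p).mapDomain (List.map (Prod.map id u)) -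
      (x p).mapDomain (List.map (Prod.map id v))) =
      f.cyc.fm ((presA A).fth y) - f'.cyc.fm ((presA A).fth x) := by
    funext p
    change th P'.ρ (_ - _) = _
    rw [map_sub, (h1 p).2, (h2 p).2]
    rfl
  rw [h3]
  change _ ↔ f.cyc.H Set.univ m _ = f'.cyc.H Set.univ m _
  rw [CycMod.Hom.H_cls, CycMod.Hom.H_cls, ← sub_eq_zero, ← CycMod.cls_sub, CycMod.cls_eq_zero]
  exact Iff.rfl

variable {M : Type} [AddCommGroup M] [Module k M]
  {gM : ℤ → Submodule k M} {dM : M →ₗ[k] M} {l : A.V → M → M} {r : M → A.V → M}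

theorem induces_iff (h : IsBim k A.V A.gr A.D A.V A.gr A.D M gM dM l r)
    {H₀ : Type} [AddCommGroup H₀] [Module k H₀]
    {q₀ : (ℤ → MonoidAlgebra k (List (ℤ × A.V))) →ₗ[k] H₀}
    {H₁ : Type} [AddCommGroup H₁] [Module k H₁]
    {q₁ : (ℤ → MonoidAlgebra k (List (ℤ × A.V))) →ₗ[k] H₁}
    (hq₀ : IsHP k A.V A.gr A.D 0 H₀ q₀) (hq₁ : IsHP k A.V A.gr A.D 1 H₁ q₁)
    (e₀ : H₀ ≃ₗ[k] A.HP 0) (e₁ : H₁ ≃ₗ[k] A.HP 1)
    (he₀ : ∀ c (hc : c ∈ CycA k A.V A.gr A.D 0),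
      e₀ (q₀ c) = A.cyc.cls ((presA A).fth c) ((presA A).mem_Cyc.1 hc).2)
    (he₁ : ∀ c (hc : c ∈ CycA k A.V A.gr A.D 1),
      e₁ (q₁ c) = A.cyc.cls ((presA A).fth c) ((presA A).mem_Cyc.1 hc).2)
    (φ : H₀ × H₁ →ₗ[k] H₀ × H₁) :
    Induces k A.V A.gr A.D M gM dM l r H₀ q₀ H₁ q₁ φ ↔
      (toZBim h).Induces ((e₀.prodCongr e₁).toLinearMap ∘ₗ φ ∘ₗ
        (e₀.prodCongr e₁).symm.toLinearMap) := by
  obtain ⟨P', hP1, hP2⟩ := exists_presE h
  have hu : ∀ u : A.V → A.V × M → A.V × M, (∀ a x, u a x = (a * x.1, 0)) →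
      ∀ a, u a = P'.j ((toZBim h).iM.f a) := fun u hu a => funext (fun x =>
    (hu a x).trans (hP1 a x).symm)
  have hv : ∀ v : A.V → A.V × M → A.V × M, (∀ a x, v a x = (0, l a x.2)) →
      ∀ a, v a = P'.j ((toZBim h).rhoM.f a) := fun v hv a => funext (fun x =>
    (hv a x).trans (hP2 a x).symm)
  constructor
  · rintro ⟨u, v, hu', hv', H⟩ z
    obtain ⟨z₀, z₁⟩ := z
    obtain ⟨x, hx, hx'⟩ := hq₀.1 (e₀.symm z₀)
    obtain ⟨x', hx₁, hx₁'⟩ := hq₁.1 (e₁.symm z₁)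
    obtain ⟨y, hy, hy'⟩ := hq₀.1 (φ (e₀.symm z₀, e₁.symm z₁)).1
    obtain ⟨y', hy₁, hy₁'⟩ := hq₁.1 (φ (e₀.symm z₀, e₁.symm z₁)).2
    have h1 := H x hx y hy x' hx₁ y' hy₁ (by rw [hx', hx₁', hy', hy₁'])
    have h2 := (cond_iff P' (toZBim h).iM (toZBim h).rhoM u v (hu u hu') (hv v hv') hx hy).1 h1.1
    have h3 := (cond_iff P' (toZBim h).iM (toZBim h).rhoM u v (hu u hu') (hv v hv')
      hx₁ hy₁).1 h1.2
    rw [← he₀ y hy, ← he₀ x hx, hx', hy', e₀.apply_symm_apply] at h2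
    rw [← he₁ y' hy₁, ← he₁ x' hx₁, hx₁', hy₁', e₁.apply_symm_apply] at h3
    exact Prod.ext h2 h3
  · intro H
    refine ⟨fun a x => (a * x.1, 0), fun a x => (0, l a x.2), fun _ _ => rfl, fun _ _ => rfl, ?_⟩
    intro x hx y hy x' hx₁ y' hy₁ hφ
    have h1 := H (e₀ (q₀ x), e₁ (q₁ x'))
    have h2 : ((e₀.prodCongr e₁).toLinearMap ∘ₗ φ ∘ₗ (e₀.prodCongr e₁).symm.toLinearMap)
        (e₀ (q₀ x), e₁ (q₁ x')) = (e₀ (q₀ y), e₁ (q₁ y')) := by
      change (e₀.prodCongr e₁) (φ (e₀.symm (e₀ (q₀ x)), e₁.symm (e₁ (q₁ x')))) = _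
      rw [e₀.symm_apply_apply, e₁.symm_apply_apply, hφ]
      rfl
    rw [h2, he₀ x hx, he₀ y hy, he₁ x' hx₁, he₁ y' hy₁] at h1
    refine ⟨?_, ?_⟩
    · refine (cond_iff P' (toZBim h).iM (toZBim h).rhoM _ _ (hu _ (fun _ _ => rfl))
        (hv _ (fun _ _ => rfl)) hx hy).2 ?_
      exact congrArg Prod.fst h1
    · refine (cond_iff P' (toZBim h).iM (toZBim h).rhoM _ _ (hu _ (fun _ _ => rfl))
        (hv _ (fun _ _ => rfl)) hx₁ hy₁).2 ?_
      exact congrArg Prod.snd h1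

end KPub
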