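import Mathlib
import Pool.Agent.H94.NC.Stmt
import Pool.Agent.H94.NC.Conv
import Pool.Agent.H94.NC.GRef
import Pool.Agent.H16.NC.ZA
import Pool.Agent.H16.NC.RxL
import Pool.Agent.H15.NC.Cone
import Pool.Agent.H9.NC.Lin

/-!
# Bridge: semi-free bimodules which are perfect as right modules

If `M` is semi-free over `Aᵒᵖ ⊗ A` and `φ : X → M` is a quasi-isomorphism of right dg modules,
then there is a morphism `s : M → X` of right dg modules and a right linear `h : M → M` of degree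
`-1` with `φ s = 1 + D h + h D` (lifting along quasi-isomorphisms); if moreover `X` is a homotopy
retract of `F`, then `M` is a homotopy retract of `F`.

Proof of the lifting.  Let `C` be the cone of `φ`, an acyclic right module.  The complex of right
linear maps `M → C` is the complex of bimodule maps `M → Hom(A, C)`: to `f` corresponds
`m ↦ (a ↦ ± f (a m))`, and back one evaluates at `1`.  As `Hom(A, C)` is acyclic, so is the
complex of bimodule maps from the semi-free `M` to it (`homBi_acyclic`).  Hence the inclusion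
`M → C`, which is a cycle, is `D H` with `H = (s', h')`; take the components of `s'`, `- h'` of
degrees `0` and `-1`.
-/

set_option autoImplicit false

open scoped TensorProduct

noncomputable section

namespace KPub

open NC

section lift

variable {k : Type} [Field k] {A : DGA k} {M C : SD k}

/-- (internal) `f ↦ (m ↦ (a ↦ ± f (a m)))` -/
private def RLift_th (l : LA A M) (C : SD k) :
    SD.Hom (SD.hom M C) (SD.hom M (SD.hom A.toSD C)) :=
  ((compH A.toSD M C).comp ((SD.Hom.id (SD.hom M C)).tens (rx l))).curry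

private theorem RLift_th_apply (l : LA A M) (f : M.V →ₗ[k] C.V) (m : M.V) :
    (RLift_th l C).f f m = f ∘ₗ (rx l).f m := rfl

private theorem RLift_homA (C : SD k) (hC : C.Acyclic) : (SD.hom A.toSD C).Acyclic := by
  obtain ⟨s, hs, hs2⟩ := hC.contraction
  intro f hf
  have hf' : ∀ a, C.D (f a) = C.E (f (A.E (A.D a))) := by
    intro a
    have h1 := SD.hD_apply A.toSD C f a
    have h2 : SD.hD A.toSD C f = 0 := hf
    rw [h2] at h1
    exact sub_eq_zero.1 h1.symm
  refine ⟨s ∘ₗ f, LinearMap.ext (fun a => ?_)⟩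
  refine (SD.hD_apply A.toSD C (s ∘ₗ f) a).trans ?_
  rw [LinearMap.comp_apply, LinearMap.comp_apply]
  have h3 : C.E (s (f (A.E (A.D a)))) = - s (C.E (f (A.E (A.D a)))) := by
    rw [hs.E, neg_neg]
  rw [h3, ← hf', sub_neg_eq_add, hs2]

private theorem RLift_E_even (f : M.V →ₗ[k] C.V) (m : M.V) :
    SD.hP M C f (M.E m) = C.E (SD.hP M C f m) := by
  simp only [SD.hP_apply, SD.E_apply, map_add, map_sub, M.PP, C.PP]
  abel

private theorem RLift_E_odd (f : M.V →ₗ[k] C.V) (m : M.V) :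
    (f - SD.hP M C f) (M.E m) = - C.E ((f - SD.hP M C f) m) := by
  simp only [LinearMap.sub_apply, SD.hP_apply, SD.E_apply, map_add, map_sub, M.PP, C.PP]
  abel

private theorem RLift_mem (bM : Bi A A M) (rC : RA A C) {f : M.V →ₗ[k] C.V}
    (hf : f ∈ rLin bM.r rC) :
    (RLift_th bM.l C).f f ∈ lLin bM.l (A.diag.r.pre C) ⊓ rLin bM.r (rC.post A.toSD) := by
  have hf' : ∀ x b, f (bM.r.act x b) = rC.act (f x) b := hf
  refine ⟨fun a m => ?_, fun m c => ?_⟩
  · have hP : SD.hP M (SD.hom A.toSD C) ((RLift_th bM.l C).f f) =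
        (RLift_th bM.l C).f (SD.hP M C f) := ((RLift_th bM.l C).P f).symm
    have h1 : (rx bM.l).f (bM.l.act a m) = (A.diag.r.pre M).act a ((rx bM.l).f m) :=
      rx_preR bM.l a m
    rw [hP]
    refine LinearMap.ext (fun b => ?_)
    rw [RLift_th_apply, h1]
    have e1 : ∀ (Z : SD k) (a : A.V) (g : A.V →ₗ[k] Z.V) (b : A.V),
        (A.diag.r.pre Z).act a g b = g (b * A.P a) - Z.E (g (b * (a - A.P a))) :=
      fun _ _ _ _ => rfl
    rw [LinearMap.comp_apply, e1, LinearMap.add_apply, e1, e1]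
    have e2 : ∀ (g : M.V →ₗ[k] C.V) (m : M.V) (b : A.V),
      (RLift_th bM.l C).f g m b = g ((rx bM.l).f m b) := fun _ _ _ => rfl
    have e3 : ∀ (m : M.V) (b : A.V),
      ((RLift_th bM.l C).f f m - (RLift_th bM.l C).f (SD.hP M C f) m) b =
        (f - SD.hP M C f) ((rx bM.l).f m b) := fun _ _ => rfl
    rw [e2, e2, e3, e3]
    have h2 : ∀ v, f (M.E v) = C.E (SD.hP M C f v) - C.E ((f - SD.hP M C f) v) := by
      intro v
      have e4 := RLift_E_even (C := C) f v
      have e5 := RLift_E_odd (C := C) f v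
      rw [LinearMap.sub_apply, e4, sub_eq_iff_eq_add] at e5
      rw [e5]
      abel
    have h3 : A.E a - A.P (A.E a) = -(a - A.P a) := A.E_sub_P_E a
    rw [map_sub, h2, h3, A.PE, mul_neg, map_neg, map_neg]
    simp only [LinearMap.sub_apply, map_neg, map_sub]
    abel
  · have h1 : (rx bM.l).f (bM.r.act m c) = (bM.r.post A.toSD).act ((rx bM.l).f m) c :=
      rx_postR (l := bM.l) (r := bM.r) bM.lr m c
    refine LinearMap.ext (fun b => ?_)
    rw [RLift_th_apply, h1]
    change f (bM.r.act ((rx bM.l).f m b) (A.P c) +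
        bM.r.act ((rx bM.l).f m (A.E b)) (c - A.P c)) =
      rC.act (f ((rx bM.l).f m b)) (A.P c) + rC.act (f ((rx bM.l).f m (A.E b))) (c - A.P c)
    rw [map_add, hf', hf']

/-- Right linear maps from a semi-free bimodule to an acyclic right module are acyclic. -/
theorem rlift_homR_acyclic {I : Type} {bM : Bi A A M} (hM : SemiFree bM I)
    (h1 : ∀ m, bM.l.act 1 m = m) (rC : RA A C) (h2 : ∀ c, rC.act c 1 = c) (hC : C.Acyclic) :
    (HomR bM.r rC).Acyclic := by
  intro f hf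
  let bZ : Bi A A (SD.hom A.toSD C) :=
    ⟨A.diag.r.pre C, rC.post A.toSD, LR.prepost A.diag.r rC⟩
  have hP1 : A.P (1 : A.V) = 1 := A.P_one
  have hZ := homBi_acyclic hM (bZ := bZ)
    (fun z => by
      refine LinearMap.ext (fun b => ?_)
      change z (b * A.P 1) - C.E (z (b * (1 - A.P 1))) = z b
      rw [hP1, sub_self, mul_zero, map_zero, map_zero, sub_zero, mul_one])
    (fun z => by
      refine LinearMap.ext (fun b => ?_)
      change rC.act (z b) (A.P 1) + rC.act (z (A.E b)) (1 - A.P 1) = z b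
      rw [hP1, sub_self, map_zero, add_zero, h2])
    (RLift_homA C hC)
  obtain ⟨ξ, hξ⟩ := hZ ⟨(RLift_th bM.l C).f f.1, RLift_mem bM rC f.2⟩ (by
    refine Subtype.ext ?_
    change SD.hD M (SD.hom A.toSD C) ((RLift_th bM.l C).f f.1) = 0
    have h3 : (RLift_th bM.l C).f (SD.hD M C f.1) =
      SD.hD M (SD.hom A.toSD C) ((RLift_th bM.l C).f f.1) := (RLift_th bM.l C).D f.1
    have h4 : SD.hD M C f.1 = 0 := congrArg Subtype.val hf
    rw [← h3, h4, map_zero])
  have hr : ∀ x b, ξ.1 (bM.r.act x b) = (rC.post A.toSD).act (ξ.1 x) b := ξ.2.2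
  let g : M.V →ₗ[k] C.V := (LinearMap.applyₗ (1 : A.V)) ∘ₗ ξ.1
  have hg : ∀ m, g m = ξ.1 m 1 := fun _ => rfl
  have hE1 : A.E (1 : A.V) = 1 := A.E_one
  refine ⟨⟨g, fun m c => ?_⟩, Subtype.ext (LinearMap.ext (fun m => ?_))⟩
  · rw [hg, hr]
    change rC.act (ξ.1 m 1) (A.P c) + rC.act (ξ.1 m (A.E 1)) (c - A.P c) = rC.act (g m) c
    rw [hE1, ← map_add, add_sub_cancel, hg]
  · change SD.hD M C g m = f.1 m
    have h3 : SD.hD M (SD.hom A.toSD C) ξ.1 = (RLift_th bM.l C).f f.1 := congrArg Subtype.val hξ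
    have h4 := SD.hD_apply M (SD.hom A.toSD C) ξ.1 m
    rw [h3, RLift_th_apply] at h4
    have h5 := LinearMap.congr_fun h4 (1 : A.V)
    have h6 : (f.1 ∘ₗ (rx bM.l).f m) (1 : A.V) = f.1 m := by
      change f.1 (bM.l.act (A.P 1) m + bM.l.act (1 - A.P 1) (M.E m)) = f.1 m
      rw [hP1, sub_self, map_zero, LinearMap.zero_apply, add_zero, h1]
    rw [h6] at h5
    rw [h5, SD.hD_apply]
    change _ = SD.hD A.toSD C (ξ.1 m) 1 - SD.hE A.toSD C (ξ.1 (M.E (M.D m))) 1
    rw [SD.hD_apply, SD.hE_apply]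
    have hD1 : A.D (1 : A.V) = 0 := A.D_one
    rw [hD1, map_zero, map_zero, map_zero, sub_zero, hE1, hg, hg]

end lift

variable {k : Type} [Field k] {A : ZDGA k}

/-! ### components of linear maps -/

private theorem RLift_E_gr (X : ZD k) {i : ℤ} {v : X.V} (hv : v ∈ X.gr i) :
    X.E v = (if Even i then (1 : k) else -1) • v := by
  rw [SD.E_apply, X.P_gr i v hv]
  by_cases h : Even i
  · rw [if_pos h, if_pos h, one_smul]
    abel
  · rw [if_neg h, if_neg h, neg_one_smul]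
    abel

/-- (internal) the component of degree `c` of a linear map -/
private def RLift_gp (X Y : ZD k) (f : X.V →ₗ[k] Y.V) (c : ℤ) : X.V →ₗ[k] Y.V :=
  GRef.glue X.internal (fun i => GRef.pj Y.internal (i + c) ∘ₗ f)

private theorem RLift_gp_apply (X Y : ZD k) (f : X.V →ₗ[k] Y.V) (c : ℤ) {i : ℤ} {v : X.V}
    (hv : v ∈ X.gr i) : RLift_gp X Y f c v = GRef.pj Y.internal (i + c) (f v) :=
  GRef.glue_apply X.internal _ hv

private theorem RLift_gp_mem (X Y : ZD k) (f : X.V →ₗ[k] Y.V) (c : ℤ) {i : ℤ} {v : X.V}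
    (hv : v ∈ X.gr i) : RLift_gp X Y f c v ∈ Y.gr (i + c) := by
  rw [RLift_gp_apply X Y f c hv]
  exact GRef.pj_mem _ _ _

private theorem RLift_gp_r (X Y : ZRMod A) (f : X.V →ₗ[k] Y.V) (c : ℤ)
    (hf : ∀ x a, f (X.r x a) = Y.r (f x) a) (x : X.V) (a : A.V) :
    RLift_gp X.toZD Y.toZD f c (X.r x a) = Y.r (RLift_gp X.toZD Y.toZD f c x) a := by
  refine GRef.eq_int X.internal (RLift_gp X.toZD Y.toZD f c ∘ₗ X.r.flip a)
    (Y.r.flip a ∘ₗ RLift_gp X.toZD Y.toZD f c) (fun i x hx => ?_) x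
  change RLift_gp X.toZD Y.toZD f c (X.r x a) = Y.r (RLift_gp X.toZD Y.toZD f c x) a
  refine GRef.eq_int A.internal (RLift_gp X.toZD Y.toZD f c ∘ₗ X.r x)
    (Y.r (RLift_gp X.toZD Y.toZD f c x)) (fun j a ha => ?_) a
  change RLift_gp X.toZD Y.toZD f c (X.r x a) = Y.r (RLift_gp X.toZD Y.toZD f c x) a
  rw [RLift_gp_apply X.toZD Y.toZD f c (X.r_gr i j x hx a ha),
    RLift_gp_apply X.toZD Y.toZD f c hx, hf]
  have h1 := GRef.pj_comm Y.internal Y.internal (Y.r.flip a) j
    (fun m v hv => Y.r_gr m j v hv a ha) (i + c) (f x)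
  rw [LinearMap.flip_apply, LinearMap.flip_apply] at h1
  rw [← h1]
  congr 2
  ring

/-- (internal) right linear maps to acyclic modules are acyclic -/
private def RLift_proj (N : ZRMod A) : Prop :=
  ∀ (C : SD k) (rC : RA A.toDGA C), (∀ c, rC.act c 1 = c) → C.Acyclic → (HomR N.ra rC).Acyclic

/-- (internal) lifting along a quasi-isomorphism: parity graded form -/
private theorem RLift_super (N X : ZRMod A) (hN : RLift_proj N) (φ : ZRMod.Hom X N)
    (h1 : ∀ m, X.D m = 0 → (∃ n, N.D n = φ.f m) → ∃ m', X.D m' = m)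
    (h2 : ∀ n, N.D n = 0 → ∃ m n', X.D m = 0 ∧ φ.f m = n + N.D n') :
    ∃ (s : N.V →ₗ[k] X.V) (h : N.V →ₗ[k] N.V),
      (∀ m a, s (N.r m a) = X.r (s m) a) ∧ (∀ m a, h (N.r m a) = N.r (h m) a) ∧
      (∀ m, X.D (s m) = X.E (s (N.E (N.D m)))) ∧
      ∀ m, φ.f (s m) + N.D (h m) - N.E (h (N.E (N.D m))) = m := by
  let φ' : SD.Hom X.toSD N.toSD :=
    { f := φ.f
      D := φ.D
      P := hom_P (X := X.toZD) (Y := N.toZD) φ.f φ.gr }
  have hr : X.ra.IsHom N.ra φ' := φ.r
  have hqi : φ'.QI :=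
    { inj := fun x y hx hxy => h1 x hx ⟨y, hxy.symm⟩
      surj := fun y hy => by
        obtain ⟨m, n', hm, hmn⟩ := h2 y hy
        refine ⟨m, -n', hm, ?_⟩
        change y = φ.f m + N.D (-n')
        rw [hmn, map_neg]
        abel }
  have hC := hqi.hcone
  have hac := hN _ (X.ra.hcone φ' N.ra hr)
    (fun c => by
      refine Prod.ext ?_ ?_
      · exact X.r_one _
      · exact N.r_one _) hC
  have hDc : ∀ (f : N.V →ₗ[k] (SD.hcone φ').V) (m : N.V),
      SD.hD N.toSD (SD.hcone φ') f m =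
        ((-(X.D (f m).1) + X.E (f (N.E (N.D m))).1,
          φ.f (f m).1 + N.D (f m).2 - N.E (f (N.E (N.D m))).2) : X.V × N.V) := by
    intro f m
    refine (SD.hD_apply N.toSD (SD.hcone φ') f m).trans ?_
    refine Prod.ext ?_ ?_
    · have e := congrArg Prod.fst (SD.hcone_E φ' (f (N.E (N.D m))))
      have e' : ((SD.hcone φ').E (f (N.E (N.D m)))).1 = -(X.E (f (N.E (N.D m))).1) := e
      change -(X.D (f m).1) - ((SD.hcone φ').E (f (N.E (N.D m)))).1 = _
      rw [e', sub_neg_eq_add]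
    · have e := congrArg Prod.snd (SD.hcone_E φ' (f (N.E (N.D m))))
      have e' : ((SD.hcone φ').E (f (N.E (N.D m)))).2 = N.E (f (N.E (N.D m))).2 := e
      change φ.f (f m).1 + N.D (f m).2 - ((SD.hcone φ').E (f (N.E (N.D m)))).2 = _
      rw [e']
  obtain ⟨H, hH⟩ := hac ⟨SD.cinr φ', fun m a => by
      refine Prod.ext ?_ rfl
      change (0 : X.V) = X.r 0 a
      rw [map_zero, LinearMap.zero_apply]⟩ (by
    refine Subtype.ext (LinearMap.ext (fun m => ?_))
    refine (hDc (SD.cinr φ') m).trans ?_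
    refine Prod.ext ?_ ?_
    · change -(X.D 0) + X.E 0 = 0
      rw [map_zero, map_zero, neg_zero, add_zero]
    · change φ.f 0 + N.D m - N.E (N.E (N.D m)) = 0
      rw [N.EE, map_zero, zero_add, sub_self])
  have hHr : ∀ m a, H.1 (N.r m a) = ((X.r (H.1 m).1 a, N.r (H.1 m).2 a) : X.V × N.V) := H.2
  have hD : ∀ m, ((-(X.D (H.1 m).1) + X.E (H.1 (N.E (N.D m))).1,
          φ.f (H.1 m).1 + N.D (H.1 m).2 - N.E (H.1 (N.E (N.D m))).2) : X.V × N.V) = (0, m) := by
    intro m
    rw [← hDc]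
    exact LinearMap.congr_fun (congrArg Subtype.val hH) m
  refine ⟨SD.cfst φ' ∘ₗ H.1, SD.csnd φ' ∘ₗ H.1, fun m a => congrArg Prod.fst (hHr m a),
    fun m a => congrArg Prod.snd (hHr m a), fun m => ?_, fun m => congrArg Prod.snd (hD m)⟩
  have h4 : -(X.D (H.1 m).1) + X.E (H.1 (N.E (N.D m))).1 = 0 := congrArg Prod.fst (hD m)
  rw [neg_add_eq_sub, sub_eq_zero] at h4
  exact h4.symm

/-- (internal) lifting along a quasi-isomorphism -/
private theorem RLift_graded (N X : ZRMod A) (hN : RLift_proj N) (φ : ZRMod.Hom X N)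
    (h1 : ∀ m, X.D m = 0 → (∃ n, N.D n = φ.f m) → ∃ m', X.D m' = m)
    (h2 : ∀ n, N.D n = 0 → ∃ m n', X.D m = 0 ∧ φ.f m = n + N.D n') :
    ∃ (s : ZRMod.Hom N X) (h : N.V →ₗ[k] N.V),
      (∀ i, ∀ x ∈ N.gr i, h x ∈ N.gr (i - 1)) ∧ (∀ m a, h (N.r m a) = N.r (h m) a) ∧
      ∀ m, φ.f (s.f m) = m + N.D (h m) + h (N.D m) := by
  obtain ⟨s', h', hs, hh, hsD, hhD⟩ := RLift_super N X hN φ h1 h2
  have hsn : ∀ i : ℤ, (if Even (i + 1) then (1 : k) else -1) *
      (if Even (i + 1) then (1 : k) else -1) = 1 := by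
    intro i
    by_cases h : Even (i + 1) <;> simp [h]
  have hsn2 : ∀ i : ℤ, (if Even i then (1 : k) else -1) *
      (if Even (i + 1) then (1 : k) else -1) = -1 := by
    intro i
    by_cases h : Even i <;> simp [h]
  have hpE : ∀ (Y : ZD k) (i : ℤ) (y : Y.V), GRef.pj Y.internal i (Y.E y) =
      (if Even i then (1 : k) else -1) • GRef.pj Y.internal i y := by
    intro Y i y
    have hEg : ∀ m, ∀ v ∈ Y.gr m, Y.E v ∈ Y.gr (m + 0) := by
      intro m v hv
      rw [add_zero, RLift_E_gr Y hv]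
      exact Submodule.smul_mem _ _ hv
    have e := GRef.pj_comm Y.internal Y.internal Y.E 0 hEg i y
    rw [add_zero] at e
    rw [e, RLift_E_gr Y (GRef.pj_mem _ _ _)]
  refine ⟨{ f := RLift_gp N.toZD X.toZD s' 0
            r := RLift_gp_r N X s' 0 hs
            D := fun m => ?_
            gr := fun i m hm => ?_ }, -RLift_gp N.toZD N.toZD h' (-1), ?_, ?_, ?_⟩
  · refine GRef.eq_int N.internal (RLift_gp N.toZD X.toZD s' 0 ∘ₗ N.D)
      (X.D ∘ₗ RLift_gp N.toZD X.toZD s' 0) (fun i m hm => ?_) m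
    change RLift_gp N.toZD X.toZD s' 0 (N.D m) = X.D (RLift_gp N.toZD X.toZD s' 0 m)
    rw [RLift_gp_apply N.toZD X.toZD s' 0 hm,
      RLift_gp_apply N.toZD X.toZD s' 0 (N.D_gr i m hm)]
    have e1 := GRef.pj_comm X.internal X.internal X.D 1 X.D_gr (i + 0) (s' m)
    rw [← e1, hsD, add_zero, add_zero, hpE X.toZD, RLift_E_gr N.toZD (N.D_gr i m hm), map_smul,
      map_smul, smul_smul, hsn, one_smul]
  · have e := RLift_gp_mem N.toZD X.toZD s' 0 hm
    rw [add_zero] at e
    exact e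
  · intro i x hx
    exact Submodule.neg_mem _ (RLift_gp_mem N.toZD N.toZD h' (-1) hx)
  · intro m a
    have e := RLift_gp_r N N h' (-1) hh m a
    rw [LinearMap.neg_apply, LinearMap.neg_apply, map_neg, LinearMap.neg_apply]
    exact congrArg Neg.neg e
  · intro m
    refine GRef.eq_int N.internal (φ.f ∘ₗ RLift_gp N.toZD X.toZD s' 0)
      (LinearMap.id + N.D ∘ₗ (-RLift_gp N.toZD N.toZD h' (-1)) +
        (-RLift_gp N.toZD N.toZD h' (-1)) ∘ₗ N.D) (fun i m hm => ?_) m
    change φ.f (RLift_gp N.toZD X.toZD s' 0 m) = m + N.D (-RLift_gp N.toZD N.toZD h' (-1) m) +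
      -RLift_gp N.toZD N.toZD h' (-1) (N.D m)
    rw [RLift_gp_apply N.toZD X.toZD s' 0 hm, RLift_gp_apply N.toZD N.toZD h' (-1) hm,
      RLift_gp_apply N.toZD N.toZD h' (-1) (N.D_gr i m hm)]
    have e0 := congrArg (GRef.pj N.internal i) (hhD m)
    rw [map_sub, map_add, hpE N.toZD, RLift_E_gr N.toZD (N.D_gr i m hm), map_smul,
      map_smul, smul_smul, hsn2, neg_one_smul, GRef.pj_same N.internal hm] at e0
    have e1 := GRef.pj_comm X.internal N.internal φ.f 0
      (fun m v hv => by rw [add_zero]; exact φ.gr m v hv) i (s' m)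
    have e2 := GRef.pj_comm N.internal N.internal N.D 1 N.D_gr (i + -1) (h' m)
    have e3 : i + -1 + 1 = i := by ring
    have e4 : i + 1 + -1 = i := by ring
    rw [add_zero] at e1
    rw [e3] at e2
    rw [e1, e2] at e0
    rw [add_zero, e4, map_neg]
    rw [sub_neg_eq_add] at e0
    nth_rewrite 2 [← e0]
    abel

/-- (internal) transport of a homotopy retraction along a quasi-isomorphism -/
private theorem RLift_retract (N X F : ZRMod A) (hN : RLift_proj N) (φ : ZRMod.Hom X N)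
    (h1 : ∀ m, X.D m = 0 → (∃ n, N.D n = φ.f m) → ∃ m', X.D m' = m)
    (h2 : ∀ n, N.D n = 0 → ∃ m n', X.D m = 0 ∧ φ.f m = n + N.D n')
    (hX : ZRMod.IsHRetract X F) : ZRMod.IsHRetract N F := by
  obtain ⟨s, h, hh1, hh2, hh3⟩ := RLift_graded N X hN φ h1 h2
  obtain ⟨sX, rX, hX, hX1, hX2, hX3⟩ := hX
  refine ⟨{ f := sX.f ∘ₗ s.f
            r := fun m a => ?_
            D := fun m => ?_
            gr := fun i m hm => sX.gr i _ (s.gr i m hm) },
          { f := φ.f ∘ₗ rX.f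
            r := fun m a => ?_
            D := fun m => ?_
            gr := fun i m hm => φ.gr i _ (rX.gr i m hm) },
          h + φ.f ∘ₗ hX ∘ₗ s.f, ?_, ?_, ?_⟩
  · rw [LinearMap.comp_apply, s.r, sX.r]
    rfl
  · rw [LinearMap.comp_apply, s.D, sX.D]
    rfl
  · rw [LinearMap.comp_apply, rX.r, φ.r]
    rfl
  · rw [LinearMap.comp_apply, rX.D, φ.D]
    rfl
  · intro i x hx
    exact Submodule.add_mem _ (hh1 i x hx) (φ.gr _ _ (hX1 i _ (s.gr i x hx)))
  · intro x a
    change h (N.r x a) + φ.f (hX (s.f (N.r x a))) = N.r (h x + φ.f (hX (s.f x))) a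
    rw [s.r, hX2, φ.r, hh2, map_add, LinearMap.add_apply]
  · intro x
    change φ.f (rX.f (sX.f (s.f x))) = x + N.D (h x + φ.f (hX (s.f x))) +
      (h (N.D x) + φ.f (hX (s.f (N.D x))))
    rw [hX3, map_add, map_add, s.D, map_add, ← φ.D, hh3]
    abel

theorem retract_of_qi (M : ZBim A) {I : Type} (hM : M.IsSemiFree I) (X F : ZRMod A)
    (φ : ZRMod.Hom X M.right)
    (h1 : ∀ m, X.D m = 0 → (∃ n, M.D n = φ.f m) → ∃ m', X.D m' = m)
    (h2 : ∀ n, M.D n = 0 → ∃ m n', X.D m = 0 ∧ φ.f m = n + M.D n')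
    (hX : ZRMod.IsHRetract X F) : ZRMod.IsHRetract M.right F := by
  obtain ⟨hS⟩ := hM.super
  exact RLift_retract M.right X F
    (fun C rC hu hC => rlift_homR_acyclic hS M.l_one rC hu hC) φ h1 h2 hX

end KPub
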