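import Mathlib
import Pool.Agent.H94.PB.IndB
import Pool.Agent.H94.PB.BimB
import Pool.Agent.H94.PB.RLift

/-!
# Bridge, final assembly
-/

set_option autoImplicit false

open scoped TensorProduct

noncomputable section

namespace KPub

open NC NC.Wd

variable {k : Type} [Field k] {A : ZDGA k}

theorem isCorr_of {M : Type} [AddCommGroup M] [Module k M] {gM : ℤ → Submodule k M}
    {dM : M →ₗ[k] M} {l : A.V → M → M} {r : M → A.V → M}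
    (h : IsCorr k A.V A.gr A.D M gM dM l r) : (toZBim h.1).IsCorr := by
  obtain ⟨hb, ⟨I, hI⟩, hp⟩ := h
  have hI' := semiFree_of hb hI
  refine ⟨⟨I, hI'⟩, ?_⟩
  obtain ⟨X, F, n, φ, ⟨h1, h2⟩, hF, hX⟩ := perf_of hb hp
  exact ⟨F, n, hF, retract_of_qi (toZBim hb) hI' X F φ h1 h2 hX⟩

section

variable {H₀ : Type} [AddCommGroup H₀] [Module k H₀]
  {q₀ : (ℤ → MonoidAlgebra k (List (ℤ × A.V))) →ₗ[k] H₀}
  {H₁ : Type} [AddCommGroup H₁] [Module k H₁]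
  {q₁ : (ℤ → MonoidAlgebra k (List (ℤ × A.V))) →ₗ[k] H₁}

/-- conjugation with an isomorphism -/
def cj (e : (H₀ × H₁) ≃ₗ[k] A.HPs) (φ : H₀ × H₁ →ₗ[k] H₀ × H₁) : A.HPs →ₗ[k] A.HPs :=
  e.toLinearMap ∘ₗ φ ∘ₗ e.symm.toLinearMap

theorem cj_apply (e : (H₀ × H₁) ≃ₗ[k] A.HPs) (φ : H₀ × H₁ →ₗ[k] H₀ × H₁) (x : A.HPs) :
    cj e φ x = e (φ (e.symm x)) := rfl

theorem cj_inj (e : (H₀ × H₁) ≃ₗ[k] A.HPs) {φ ψ : H₀ × H₁ →ₗ[k] H₀ × H₁}
    (h : cj e φ = cj e ψ) : φ = ψ := by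
  refine LinearMap.ext (fun x => e.injective ?_)
  have := LinearMap.congr_fun h (e x)
  rwa [cj_apply, cj_apply, e.symm_apply_apply] at this

theorem cj_surj (e : (H₀ × H₁) ≃ₗ[k] A.HPs) (ψ : A.HPs →ₗ[k] A.HPs) :
    ∃ φ : H₀ × H₁ →ₗ[k] H₀ × H₁, cj e φ = ψ :=
  ⟨e.symm.toLinearMap ∘ₗ ψ ∘ₗ e.toLinearMap, LinearMap.ext (fun x => by
    rw [cj_apply]; simp)⟩

theorem isAlg_of {F E : Type} [Field F] [Field E] [Algebra F E] [Algebra k E]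
    (e₀ : H₀ ≃ₗ[k] A.HP 0) (e₁ : H₁ ≃ₗ[k] A.HP 1)
    (hind : ∀ φ : H₀ × H₁ →ₗ[k] H₀ × H₁, IsInd k A.V A.gr A.D H₀ q₀ H₁ q₁ φ →
      cj (e₀.prodCongr e₁) φ ∈ A.corrMaps)
    {ψ : H₀ × H₁ →ₗ[k] H₀ × H₁} (h : IsAlg k A.V A.gr A.D H₀ q₀ H₁ q₁ F E ψ) :
    A.AlgExt E (cj (e₀.prodCongr e₁) ψ) := by
  obtain ⟨n, c, φ, hφ, hx⟩ := h
  refine ⟨n, fun i => algebraMap F E (c i), fun i => cj (e₀.prodCongr e₁) (φ i),
    fun i => hind _ (hφ i), ?_⟩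
  have key : ∀ y : A.HPs, (1 : E) ⊗ₜ[k] cj (e₀.prodCongr e₁) ψ y =
      ∑ i, algebraMap F E (c i) ⊗ₜ[k] cj (e₀.prodCongr e₁) (φ i) y := by
    intro y
    have h1 := congrArg (((e₀.prodCongr e₁).toLinearMap).lTensor E)
      (hx ((e₀.prodCongr e₁).symm y))
    rw [LinearMap.lTensor_tmul, map_sum] at h1
    refine h1.trans (Finset.sum_congr rfl (fun i _ => ?_))
    rw [LinearMap.lTensor_tmul]
    rfl
  refine LinearMap.ext (fun z => ?_)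
  rw [LinearMap.sum_apply]
  induction z using TensorProduct.induction_on with
  | zero => simp
  | add a b ha hb => rw [map_add, ha, hb, ← Finset.sum_add_distrib]; simp only [map_add]
  | tmul a y =>
    rw [LinearMap.baseChange_tmul]
    have h2 : a ⊗ₜ[k] cj (e₀.prodCongr e₁) ψ y = a • ((1 : E) ⊗ₜ[k] cj (e₀.prodCongr e₁) ψ y) := by
      rw [TensorProduct.smul_tmul', smul_eq_mul, mul_one]
    rw [h2, key, Finset.smul_sum]
    refine Finset.sum_congr rfl (fun i _ => ?_)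
    rw [LinearMap.smul_apply, LinearMap.baseChange_tmul, TensorProduct.smul_tmul',
      TensorProduct.smul_tmul', smul_eq_mul, smul_eq_mul, mul_comm]

theorem cj_piPlus (e₀ : H₀ ≃ₗ[k] A.HP 0) (e₁ : H₁ ≃ₗ[k] A.HP 1) :
    cj (e₀.prodCongr e₁) (LinearMap.inl k H₀ H₁ ∘ₗ LinearMap.fst k H₀ H₁) = A.piPlus := by
  refine LinearMap.ext (fun x => ?_)
  obtain ⟨x, y⟩ := x
  refine Prod.ext ?_ ?_
  · change e₀ (e₀.symm x) = x
    rw [e₀.apply_symm_apply]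
  · change e₁ 0 = 0
    rw [map_zero]

theorem cj_piMinus (e₀ : H₀ ≃ₗ[k] A.HP 0) (e₁ : H₁ ≃ₗ[k] A.HP 1) :
    cj (e₀.prodCongr e₁) (LinearMap.inr k H₀ H₁ ∘ₗ LinearMap.snd k H₀ H₁) = A.piMinus := by
  refine LinearMap.ext (fun x => ?_)
  obtain ⟨x, y⟩ := x
  refine Prod.ext ?_ ?_
  · change e₀ 0 = 0
    rw [map_zero]
  · change e₁ (e₁.symm y) = y
    rw [e₁.apply_symm_apply]

end

/-- the conclusion for all models of `HP` -/
theorem models (hbij : ∀ M : ZBim A, M.IsCorr → Function.Bijective M.iM.HPs)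
    (hext : ∀ (F : Type) [Field F] [Algebra k F],
      ¬ A.AlgExt F A.piPlus ∧ ¬ A.AlgExt F A.piMinus)
    (H₀ : Type) [AddCommGroup H₀] [Module k H₀]
    (q₀ : (ℤ → MonoidAlgebra k (List (ℤ × A.V))) →ₗ[k] H₀)
    (H₁ : Type) [AddCommGroup H₁] [Module k H₁]
    (q₁ : (ℤ → MonoidAlgebra k (List (ℤ × A.V))) →ₗ[k] H₁)
    (hq₀ : IsHP k A.V A.gr A.D 0 H₀ q₀) (hq₁ : IsHP k A.V A.gr A.D 1 H₁ q₁) :
    (∀ (M : Type) [AddCommGroup M] [Module k M] (gM : ℤ → Submodule k M)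
      (dM : M →ₗ[k] M) (l : A.V → M → M) (r : M → A.V → M),
      IsCorr k A.V A.gr A.D M gM dM l r →
        ∃! φ, Induces k A.V A.gr A.D M gM dM l r H₀ q₀ H₁ q₁ φ) ∧
    (∀ (F E : Type) [Field F] [Field E] [Algebra F E] [Algebra k E],
      ¬ IsAlg k A.V A.gr A.D H₀ q₀ H₁ q₁ F E (LinearMap.inl k H₀ H₁ ∘ₗ LinearMap.fst k H₀ H₁) ∧
      ¬ IsAlg k A.V A.gr A.D H₀ q₀ H₁ q₁ F E (LinearMap.inr k H₀ H₁ ∘ₗ LinearMap.snd k H₀ H₁)) := by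
  obtain ⟨e₀, he₀⟩ := model hq₀
  obtain ⟨e₁, he₁⟩ := model hq₁
  refine ⟨?_, ?_⟩
  · intro M _ _ gM dM l r hM
    have hiff : ∀ φ : H₀ × H₁ →ₗ[k] H₀ × H₁,
        Induces k A.V A.gr A.D M gM dM l r H₀ q₀ H₁ q₁ φ ↔
          (toZBim hM.1).Induces (cj (e₀.prodCongr e₁) φ) := fun φ =>
      induces_iff hM.1 hq₀ hq₁ e₀ e₁ he₀ he₁ φ
    have hb := hbij (toZBim hM.1) (isCorr_of hM)
    let E := LinearEquiv.ofBijective (toZBim hM.1).iM.HPs hb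
    obtain ⟨φ, hφ⟩ := cj_surj (e₀.prodCongr e₁)
      (E.symm.toLinearMap ∘ₗ (toZBim hM.1).rhoM.HPs)
    refine ⟨φ, ?_, ?_⟩
    · refine (hiff φ).2 ?_
      intro x
      rw [hφ]
      exact E.apply_symm_apply _
    · intro ψ hψ
      refine cj_inj (e₀.prodCongr e₁) ?_
      rw [hφ]
      refine LinearMap.ext (fun x => ?_)
      exact hb.1 (((hiff ψ).1 hψ x).trans (E.apply_symm_apply _).symm)
  · have hind : ∀ φ : H₀ × H₁ →ₗ[k] H₀ × H₁, IsInd k A.V A.gr A.D H₀ q₀ H₁ q₁ φ →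
        cj (e₀.prodCongr e₁) φ ∈ A.corrMaps := by
      rintro φ ⟨M, _, _, gM, dM, l, r, hM, hφ⟩
      exact ⟨toZBim hM.1, isCorr_of hM, (induces_iff hM.1 hq₀ hq₁ e₀ e₁ he₀ he₁ φ).1 hφ⟩
    intro F E _ _ _ _
    refine ⟨fun h => ?_, fun h => ?_⟩
    · have h1 := isAlg_of e₀ e₁ hind h
      rw [cj_piPlus] at h1
      exact (hext E).1 h1
    · have h1 := isAlg_of e₀ e₁ hind h
      rw [cj_piMinus] at h1
      exact (hext E).2 h1

/-- the public statement from the internal one -/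
theorem public_of (hsat : A.IsSaturated)
    (hbij : ∀ M : ZBim A, M.IsCorr → Function.Bijective M.iM.HPs)
    (hext : ∀ (F : Type) [Field F] [Algebra k F],
      ¬ A.AlgExt F A.piPlus ∧ ¬ A.AlgExt F A.piMinus) :
    ∃ (A : Type) (_ : Ring A) (_ : Algebra k A) (g : ℤ → Submodule k A) (d : A →ₗ[k] A),
      IsDGA k A g d ∧ IsSaturated k A g d ∧
      (∀ m, ∃ (H : Type) (_ : AddCommGroup H) (_ : Module k H)
        (q : (ℤ → MonoidAlgebra k (List (ℤ × A))) →ₗ[k] H), IsHP k A g d m H q) ∧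
      ∀ (H₀ : Type) [AddCommGroup H₀] [Module k H₀]
        (q₀ : (ℤ → MonoidAlgebra k (List (ℤ × A))) →ₗ[k] H₀)
        (H₁ : Type) [AddCommGroup H₁] [Module k H₁]
        (q₁ : (ℤ → MonoidAlgebra k (List (ℤ × A))) →ₗ[k] H₁),
        IsHP k A g d 0 H₀ q₀ → IsHP k A g d 1 H₁ q₁ →
        (∀ (M : Type) [AddCommGroup M] [Module k M] (gM : ℤ → Submodule k M)
          (dM : M →ₗ[k] M) (l : A → M → M) (r : M → A → M),
          IsCorr k A g d M gM dM l r → ∃! φ, Induces k A g d M gM dM l r H₀ q₀ H₁ q₁ φ) ∧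
        (∀ (F E : Type) [Field F] [Field E] [Algebra F E] [Algebra k E],
          ¬ IsAlg k A g d H₀ q₀ H₁ q₁ F E (LinearMap.inl k H₀ H₁ ∘ₗ LinearMap.fst k H₀ H₁) ∧
          ¬ IsAlg k A g d H₀ q₀ H₁ q₁ F E (LinearMap.inr k H₀ H₁ ∘ₗ LinearMap.snd k H₀ H₁)) := by
  refine ⟨A.V, inferInstance, inferInstance, A.gr, A.D, isDGA A, isSaturated A hsat,
    fun m => ?_, ?_⟩
  · obtain ⟨q, hq⟩ := exists_model (A := A) m
    exact ⟨A.HP m, inferInstance, inferInstance, q, hq⟩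
  · intro H₀ _ _ q₀ H₁ _ _ q₁ hq₀ hq₁
    exact models hbij hext H₀ q₀ H₁ q₁ hq₀ hq₁

end KPub
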